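import Pool.Agent.W802.BA.D7.Small
import Pool.Agent.W802.BA.D7.Detp
import Pool.Agent.W802.BA.D7.Detm

set_option autoImplicit false

open Polynomial

namespace Pool.Agent.W802.BA

open D7

/-- the factor in the bound -/
noncomputable def cc (p : ℝ) : ℝ := 1 + 3 / 100 * (1 - 2 / p)

noncomputable def RP (p : ℝ) : ℝ[X] := C (1 / 10000) * toP (1 / p) RL
noncomputable def AP (p : ℝ) : ℝ[X] := C (1 / 10000) * toP (1 / p) AL
noncomputable def BP (p : ℝ) : ℝ[X] := C (1 / 10000) * toP (1 / p) BL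

theorem ev2_sing (x u : ℝ) (l : List ℤ) : ev2 x u [l] = ev1 u l := by simp [ev2]

theorem om_ev (x u : ℝ) : ev2 x u omL = 1 - x := by simp [omL, ev2, ev1]; ring

theorem hq (x u : ℝ) : (1 - x) * ev2 x u qL = ev2 x u (DSl 0 RL) := by
  rw [← isE_spec q_eq, ev2_mul, om_ev]

theorem q_pos {x u : ℝ} (hx : 0 < x) (hx1 : x < 1) (hu : 0 < u) (hu1 : u < 1 / 2) :
    0 < ev2 x u qL := by
  have h := checkTB q_ok hx hx1 hu hu1
  rw [ev2_add, ev2_sing] at h
  simp only [ev1] at h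
  push_cast at h
  linarith

theorem x2_pos {x u : ℝ} (hx : 0 < x) (hx1 : x < 1) (hu : 0 < u) (hu1 : u < 1 / 2) :
    0 < ev2 x u X2L := by
  have h := checkTB x2_ok hx hx1 hu hu1
  rw [ev2_add, ev2_sing] at h
  simp only [ev1] at h
  push_cast at h
  linarith

theorem m2p_pos {x u : ℝ} (hx : 0 < x) (hx1 : x < 1) (hu : 0 < u) (hu1 : u < 1 / 2) :
    0 < ev2 x u m2p := by
  have h := checkTB m2p_ok hx hx1 hu hu1
  rw [ev2_add, ev2_sing] at h
  simp only [ev1] at h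
  push_cast at h
  linarith

theorem m2m_pos {x u : ℝ} (hx : 0 < x) (hx1 : x < 1) (hu : 0 < u) (hu1 : u < 1 / 2) :
    0 < ev2 x u m2m := by
  have h := checkTB m2m_ok hx hx1 hu hu1
  rw [ev2_add, ev2_sing] at h
  simp only [ev1] at h
  push_cast at h
  linarith

theorem checked {u : ℝ} (hu : 0 < u) (hu1 : u < 1 / 2) : Checked D u where
  q := fun x => hq x u
  x2 := fun x h0 h1 => by
    rw [isT_spec X2L_eq]
    exact mul_pos (by linarith) (x2_pos h0 h1 hu hu1)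
  m2 := by
    intro e he x h0 h1
    rcases he with rfl | rfl
    · exact m2_pos X2L_eq Z2p_eq XZp_eq m2p_eq hu1 (m2p_pos h0 h1 hu hu1)
    · exact m2_pos X2L_eq Z2m_eq XZm_eq m2m_eq hu1 (m2m_pos h0 h1 hu hu1)
  det := by
    intro e he x h0 h1
    rcases he with rfl | rfl
    · exact det_nonneg X2L_eq Z2p_eq XZp_eq m2p_eq W2L_eq XWp_eq ZWp_eq detp_eq hu1
        (checkTB detp_ok h0 h1 hu hu1)
    · exact det_nonneg X2L_eq Z2m_eq XZm_eq m2m_eq W2L_eq XWm_eq ZWm_eq detm_eq hu1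
        (checkTB detm_ok h0 h1 hu hu1)

theorem u_rng {p : ℝ} (hp : 2 < p) : 0 < 1 / p ∧ 1 / p < 1 / 2 :=
  ⟨by positivity, one_div_lt_one_div_of_lt (by norm_num) hp⟩

theorem head_ev (u : ℝ) : ∀ L : List (List ℤ), ev2 0 u L = ev1 u (L.headD [])
  | [] => rfl
  | l :: L => by simp [ev2]

theorem polyCert {p : ℝ} (hp : 2 < p) : PolyCert p (RP p) (AP p) (BP p) where
  R1 := by
    unfold RP
    rw [eval_mul, eval_C, eval_toP, ← at1_spec]
    have := isE_spec R1_ok 0 (1 / p)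
    rw [ev2_sing, ev2_sing] at this
    rw [this]; simp [ev1]
  dR1 := by
    unfold RP
    rw [derivative_C_mul, eval_mul, eval_C, toP_dX, eval_toP, ← at1_spec]
    have := isE_spec dR1_ok 0 (1 / p)
    rw [ev2_sing, ev2_sing] at this
    rw [this]; simp [ev1]; norm_num
  T0 := by
    obtain ⟨h0, h1⟩ := u_rng hp
    unfold RP
    have hp0 : p ≠ 0 := by positivity
    have k1 := toP_DT hp0 0 RL
    simp only [Int.cast_zero, sub_zero] at k1
    rw [DT_smul, k1, eval_mul, eval_C, eval_toP, head_ev]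
    have h2 := isT_spec t0L_eq 0 (1 / p)
    rw [ev2_sing] at h2
    rw [h2]
    have h3 := checkTB0 t0_ok (le_refl 0) one_pos h0 h1
    have h4 : 0 < 1 - 2 * (1 / p) := by linarith
    positivity
  form := by
    intro ξ x y z w h0 h1 hy
    obtain ⟨k0, k1⟩ := u_rng hp
    exact NF_nonneg hp (checked k0 k1) h0 h1 (by norm_num) x y z w hy

theorem xis_eq {p : ℝ} (hp : 2 < p) :
    (cc p * (p - 1) / (cc p * (p - 1) + p)) * ev1 (1 / p) ML = ev1 (1 / p) NL ∧
      0 < ev1 (1 / p) ML ∧ 0 < cc p * (p - 1) / (cc p * (p - 1) + p) ∧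
      cc p * (p - 1) / (cc p * (p - 1) + p) < 1 := by
  have hp0 : 0 < p := by linarith
  have hc : 1 < cc p := by
    unfold cc
    have : 2 / p < 1 := by rw [div_lt_one hp0]; exact hp
    linarith
  have h1 : 0 < cc p * (p - 1) := by nlinarith
  have h2 : 0 < cc p * (p - 1) + p := by linarith
  have hN : ev1 (1 / p) NL = 100 * (cc p * (p - 1) / p) := by
    simp only [NL, ev1, cc]; push_cast; field_simp; ring
  have hM : ev1 (1 / p) ML = 100 * ((cc p * (p - 1) + p) / p) := by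
    simp only [ML, ev1, cc]; push_cast; field_simp; ring
  refine ⟨?_, ?_, by positivity, ?_⟩
  · rw [hN, hM]; field_simp
  · rw [hM]; positivity
  · rw [div_lt_one h2]; linarith

theorem R_obst {p : ℝ} (hp : 2 < p) :
    (RP p).eval (cc p * (p - 1) / (cc p * (p - 1) + p)) ≤ 0 := by
  obtain ⟨h1, h2, h3, h4⟩ := xis_eq hp
  obtain ⟨k0, k1⟩ := u_rng hp
  unfold RP
  rw [eval_mul, eval_C, eval_toP]
  obtain ⟨-, h6⟩ := subr_spec NL ML _ _ h1 RL
  have h7 := isT_spec rsL_eq 0 (1 / p)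
  rw [ev2_sing, ev2_sing, ev1_sm] at h7
  have h8 := checkTB0 rs_ok (le_refl 0) one_pos k0 k1
  rw [ev2_sing] at h8
  have h9 : 0 < 1 - 2 * (1 / p) := by linarith
  have h10 : 0 ≤ ev1 (1 / p) (subr NL ML RL).1 * (-1) := by
    have := mul_nonneg h9.le h8
    push_cast at h7
    linarith
  have h11 : 0 ≤ (ev1 (1 / p) ML) ^ RL.length
      * (-ev2 (cc p * (p - 1) / (cc p * (p - 1) + p)) (1 / p) RL) := by
    have := mul_nonneg h10 h2.le
    linarith
  have h12 := nonneg_of_mul_nonneg_right h11 (by positivity)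
  linarith

theorem S_obst {p : ℝ} (hp : 2 < p) :
    0 < (DS p p (RP p)).eval (cc p * (p - 1) / (cc p * (p - 1) + p)) := by
  obtain ⟨h1, h2, h3, h4⟩ := xis_eq hp
  obtain ⟨k0, k1⟩ := u_rng hp
  have hp0 : p ≠ 0 := by positivity
  have e := toP_DS hp0 0 RL
  simp only [Int.cast_zero, sub_zero] at e
  unfold RP
  rw [DS_smul, e, eval_mul, eval_C, eval_toP, ← hq]
  have := q_pos h3 h4 k0 k1
  have h5 : 0 < 1 - cc p * (p - 1) / (cc p * (p - 1) + p) := by linarith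
  positivity

theorem F_st {p : ℝ} (hp : 2 < p) (ξ : ℝ) (h0 : 0 < ξ) (h1 : ξ < 1) :
    0 ≤ (DT p (p - 1) (DS p p (RP p))).eval ξ := by
  obtain ⟨k0, k1⟩ := u_rng hp
  have hp0 : p ≠ 0 := by positivity
  have e := toP_DS hp0 0 RL
  have e2 := toP_DT hp0 1 (DSl 0 RL)
  simp only [Int.cast_zero, sub_zero, Int.cast_one] at e e2
  unfold RP
  rw [DS_smul, e, DT_smul, e2, eval_mul, eval_C, eval_toP]
  have h2 := isT_spec xzL_eq ξ (1 / p)
  rw [cxz, ev2_sm] at h2
  have h3 := checkTB xz_ok h0 h1 k0 k1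
  have h4 : 0 < 1 - 2 * (1 / p) := by linarith
  have h5 : ev1 (1 / p) [2] = 2 := by simp [ev1]
  have h6 : (D.R : List (List ℤ)) = RL := rfl
  rw [h5, h6] at h2
  have h7 : 0 ≤ 2 * ev2 ξ (1 / p) (DTl 1 (DSl 0 RL)) := by rw [h2]; positivity
  linarith

end Pool.Agent.W802.BA
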