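import Mathlib

set_option autoImplicit false

/-!
Bivariate integer polynomials as lists, with a checker (evaluated by the kernel) for nonnegativity on
boxes: substitute `x = (a + b t) / (D (1 + t))`, `u = (c + d τ) / (D' (1 + τ))` and look at the signs of
the coefficients.
-/

namespace Pool.Agent.W802.BA

def add1 : List ℤ → List ℤ → List ℤ
  | [], q => q
  | a :: p, [] => a :: p
  | a :: p, b :: q => (a + b) :: add1 p q

def sm1 (c : ℤ) (p : List ℤ) : List ℤ := p.map (fun a => c * a)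

def mul1 : List ℤ → List ℤ → List ℤ
  | [], _ => []
  | a :: p, q => add1 (sm1 a q) (0 :: mul1 p q)

def add2 : List (List ℤ) → List (List ℤ) → List (List ℤ)
  | [], q => q
  | a :: p, [] => a :: p
  | a :: p, b :: q => add1 a b :: add2 p q

def sm2 (c : List ℤ) (p : List (List ℤ)) : List (List ℤ) := p.map (fun a => mul1 c a)

def mul2 : List (List ℤ) → List (List ℤ) → List (List ℤ)
  | [], _ => []
  | a :: p, q => add2 (sm2 a q) ([] :: mul2 p q)

noncomputable def ev1 (u : ℝ) : List ℤ → ℝ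
  | [] => 0
  | a :: p => a + u * ev1 u p

noncomputable def ev2 (x u : ℝ) : List (List ℤ) → ℝ
  | [] => 0
  | a :: p => ev1 u a + x * ev2 x u p

theorem ev1_add (u : ℝ) : ∀ p q : List ℤ, ev1 u (add1 p q) = ev1 u p + ev1 u q
  | [], q => by simp [add1, ev1]
  | a :: p, [] => by simp [add1, ev1]
  | a :: p, b :: q => by simp only [add1, ev1, ev1_add u p q]; push_cast; ring

theorem ev1_sm (u : ℝ) (c : ℤ) : ∀ p : List ℤ, ev1 u (sm1 c p) = c * ev1 u p
  | [] => by simp [sm1, ev1]
  | a :: p => by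
    have h := ev1_sm u c p
    simp only [sm1] at h
    simp only [sm1, List.map_cons, ev1, h]; push_cast; ring

theorem ev1_mul (u : ℝ) : ∀ p q : List ℤ, ev1 u (mul1 p q) = ev1 u p * ev1 u q
  | [], q => by simp [mul1, ev1]
  | a :: p, q => by
    simp only [mul1, ev1_add, ev1_sm, ev1, ev1_mul u p q]; push_cast; ring

theorem ev2_add (x u : ℝ) : ∀ p q : List (List ℤ), ev2 x u (add2 p q) = ev2 x u p + ev2 x u q
  | [], q => by simp [add2, ev2]
  | a :: p, [] => by simp [add2, ev2]
  | a :: p, b :: q => by simp only [add2, ev2, ev2_add x u p q, ev1_add]; ring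

theorem ev2_sm (x u : ℝ) (c : List ℤ) : ∀ p : List (List ℤ), ev2 x u (sm2 c p) = ev1 u c * ev2 x u p
  | [] => by simp [sm2, ev2]
  | a :: p => by
    have h := ev2_sm x u c p
    simp only [sm2] at h
    simp only [sm2, List.map_cons, ev2, h, ev1_mul]; ring

theorem ev2_mul (x u : ℝ) : ∀ p q : List (List ℤ), ev2 x u (mul2 p q) = ev2 x u p * ev2 x u q
  | [], q => by simp [mul2, ev2]
  | a :: p, q => by
    simp only [mul2, ev2_add, ev2_sm, ev2, ev2_mul x u p q, ev1]; ring

/-- substitution in the outer variable; returns the numerator and the power of the denominator -/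
def subx (a b D : ℤ) : List (List ℤ) → List (List ℤ) × List (List ℤ)
  | [] => ([], [[1]])
  | l :: L =>
    (add2 (sm2 l (subx a b D L).2) (mul2 [[a], [b]] (subx a b D L).1),
      mul2 [[D], [D]] (subx a b D L).2)

/-- the same for one variable -/
def subu (a b D : ℤ) : List ℤ → List ℤ × List ℤ
  | [] => ([], [1])
  | l :: L =>
    (add1 (sm1 l (subu a b D L).2) (mul1 [a, b] (subu a b D L).1), mul1 [D, D] (subu a b D L).2)

def nn1 (l : List ℤ) : Bool := l.all (fun a => decide (0 ≤ a))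

theorem subx_spec (a b D : ℤ) (x t u : ℝ) (hx : (a : ℝ) + b * t = x * (D * (1 + t))) :
    ∀ L : List (List ℤ), ev2 t u (subx a b D L).2 = (D * (1 + t)) ^ L.length ∧
      ev2 t u (subx a b D L).1 * (D * (1 + t)) = (D * (1 + t)) ^ L.length * ev2 x u L
  | [] => by simp [subx, ev2, ev1]
  | l :: L => by
    obtain ⟨h1, h2⟩ := subx_spec a b D x t u hx L
    constructor
    · simp only [subx, ev2_mul, h1, List.length_cons, pow_succ]
      simp [ev2, ev1]; ring
    · simp only [subx, ev2_add, ev2_sm, ev2_mul, h1, List.length_cons, pow_succ, ev2]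
      simp only [ev1, mul_zero, add_zero]
      have : (((a : ℝ) + t * b) * ev2 t u (subx a b D L).1) * (D * (1 + t))
          = x * (D * (1 + t)) * ((D * (1 + t)) ^ L.length * ev2 x u L) := by
        rw [mul_assoc, h2, ← hx]; ring
      rw [add_mul, this]; ring

theorem subu_spec (a b D : ℤ) (x t : ℝ) (hx : (a : ℝ) + b * t = x * (D * (1 + t))) :
    ∀ L : List ℤ, ev1 t (subu a b D L).2 = (D * (1 + t)) ^ L.length ∧
      ev1 t (subu a b D L).1 * (D * (1 + t)) = (D * (1 + t)) ^ L.length * ev1 x L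
  | [] => by simp [subu, ev1]
  | l :: L => by
    obtain ⟨h1, h2⟩ := subu_spec a b D x t hx L
    constructor
    · simp only [subu, ev1_mul, h1, List.length_cons, pow_succ]
      simp [ev1]; ring
    · simp only [subu, ev1_add, ev1_sm, ev1_mul, h1, List.length_cons, pow_succ, ev1]
      simp only [mul_zero, add_zero]
      have : (((a : ℝ) + t * b) * ev1 t (subu a b D L).1) * (D * (1 + t))
          = x * (D * (1 + t)) * ((D * (1 + t)) ^ L.length * ev1 x L) := by
        rw [mul_assoc, h2, ← hx]; ring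
      rw [add_mul, this]; ring

theorem nn1_spec {t : ℝ} (ht : 0 ≤ t) : ∀ l : List ℤ, nn1 l = true → 0 ≤ ev1 t l
  | [], _ => by simp [ev1]
  | a :: l, h => by
    simp only [nn1, List.all_cons, Bool.and_eq_true, decide_eq_true_eq] at h
    have h2 := nn1_spec ht l h.2
    have h1 : (0 : ℝ) ≤ a := by exact_mod_cast h.1
    simp only [ev1]
    exact add_nonneg h1 (mul_nonneg ht h2)

/-- padding with zeros (degree elevation) -/
def pad : ℕ → List ℤ → List ℤ
  | 0, l => l
  | m + 1, [] => 0 :: pad m []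
  | m + 1, a :: l => a :: pad m l

theorem ev1_pad (u : ℝ) : ∀ (m : ℕ) (l : List ℤ), ev1 u (pad m l) = ev1 u l
  | 0, l => rfl
  | m + 1, [] => by simp [pad, ev1, ev1_pad u m []]
  | m + 1, a :: l => by simp [pad, ev1, ev1_pad u m l]

/-- nonnegativity in `u` of one coefficient -/
def chkU (m : ℕ) (c d D' : ℤ) (l : List ℤ) : Bool := nn1 (subu c d D' (pad m l)).1

/-- the check on a box: `x ∈ [a/D, b/D)`, `u ∈ [c/D', d/D')` -/
def chk (m : ℕ) (a b D c d D' : ℤ) (L : List (List ℤ)) : Bool :=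
  decide (0 < D) && decide (0 < D') && decide (a < b) && decide (c < d) &&
    (subx a b D L).1.all (chkU m c d D')

theorem chkU_spec (m : ℕ) (c d D' : ℤ) (hD : 0 < D') {u : ℝ} (h1 : (c : ℝ) ≤ D' * u)
    (h2 : D' * u < d) (l : List ℤ) (h : chkU m c d D' l = true) : 0 ≤ ev1 u l := by
  have hD' : (0 : ℝ) < D' := by exact_mod_cast hD
  set τ : ℝ := (D' * u - c) / (d - D' * u) with hτ
  have h3 : 0 < (d : ℝ) - D' * u := by linarith
  have hτ0 : 0 ≤ τ := div_nonneg (by linarith) h3.le
  have hx : (c : ℝ) + d * τ = u * (D' * (1 + τ)) := by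
    rw [hτ]; field_simp; ring
  obtain ⟨-, h5⟩ := subu_spec c d D' u τ hx (pad m l)
  have h6 := nn1_spec hτ0 _ h
  have h7 : 0 < (D' : ℝ) * (1 + τ) := by positivity
  rw [ev1_pad] at h5
  have h8 : 0 ≤ (D' * (1 + τ)) ^ (pad m l).length * ev1 u l := by rw [← h5]; positivity
  exact nonneg_of_mul_nonneg_right h8 (by positivity)

theorem all_spec (m : ℕ) (c d D' : ℤ) (hD : 0 < D') {u t : ℝ} (ht : 0 ≤ t) (h1 : (c : ℝ) ≤ D' * u)
    (h2 : D' * u < d) : ∀ L : List (List ℤ), L.all (chkU m c d D') = true → 0 ≤ ev2 t u L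
  | [], _ => by simp [ev2]
  | l :: L, h => by
    simp only [List.all_cons, Bool.and_eq_true] at h
    have h3 := all_spec m c d D' hD ht h1 h2 L h.2
    have h4 := chkU_spec m c d D' hD h1 h2 l h.1
    simp only [ev2]
    exact add_nonneg h4 (mul_nonneg ht h3)

theorem chk_spec {m : ℕ} {a b D c d D' : ℤ} {L : List (List ℤ)} (h : chk m a b D c d D' L = true)
    {x u : ℝ}
    (hx1 : (a : ℝ) ≤ D * x) (hx2 : D * x < b) (h1 : (c : ℝ) ≤ D' * u) (h2 : D' * u < d) :
    0 ≤ ev2 x u L := by
  simp only [chk, Bool.and_eq_true, decide_eq_true_eq] at h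
  obtain ⟨⟨⟨⟨hD, hD'⟩, hab⟩, hcd⟩, h⟩ := h
  have hDr : (0 : ℝ) < D := by exact_mod_cast hD
  set t : ℝ := (D * x - a) / (b - D * x) with ht
  have h3 : 0 < (b : ℝ) - D * x := by linarith
  have ht0 : 0 ≤ t := div_nonneg (by linarith) h3.le
  have hx : (a : ℝ) + b * t = x * (D * (1 + t)) := by
    rw [ht]; field_simp; ring
  obtain ⟨-, h5⟩ := subx_spec a b D x t u hx L
  have h6 := all_spec m c d D' hD' ht0 h1 h2 _ h
  have h7 : 0 < (D : ℝ) * (1 + t) := by positivity
  have h8 : 0 ≤ (D * (1 + t)) ^ L.length * ev2 x u L := by rw [← h5]; positivity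
  exact nonneg_of_mul_nonneg_right h8 (by positivity)

/-- bisection trees -/
inductive BT
  | leaf : BT
  | sx : BT → BT → BT
  | su : BT → BT → BT

def chkT (m : ℕ) (L : List (List ℤ)) : BT → ℤ → ℤ → ℤ → ℤ → ℤ → ℤ → Bool
  | .leaf, a, b, D, c, d, D' => chk m a b D c d D' L
  | .sx l r, a, b, D, c, d, D' =>
    chkT m L l (2 * a) (a + b) (2 * D) c d D' && chkT m L r (a + b) (2 * b) (2 * D) c d D'
  | .su l r, a, b, D, c, d, D' =>
    chkT m L l a b D (2 * c) (c + d) (2 * D') && chkT m L r a b D (c + d) (2 * d) (2 * D')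

theorem chkT_spec {m : ℕ} {L : List (List ℤ)} : ∀ (T : BT) {a b D c d D' : ℤ},
    chkT m L T a b D c d D' = true → ∀ {x u : ℝ}, (a : ℝ) ≤ D * x → D * x < b → (c : ℝ) ≤ D' * u →
    D' * u < d → 0 ≤ ev2 x u L
  | .leaf, _, _, _, _, _, _, h, _, _, h1, h2, h3, h4 => chk_spec h h1 h2 h3 h4
  | .sx l r, a, b, D, c, d, D', h, x, u, h1, h2, h3, h4 => by
    simp only [chkT, Bool.and_eq_true] at h
    by_cases hx : 2 * (D : ℝ) * x < a + b
    · refine chkT_spec l h.1 ?_ ?_ h3 h4
      · push_cast; linarith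
      · push_cast; linarith
    · refine chkT_spec r h.2 ?_ ?_ h3 h4
      · push_cast; linarith
      · push_cast; linarith
  | .su l r, a, b, D, c, d, D', h, x, u, h1, h2, h3, h4 => by
    simp only [chkT, Bool.and_eq_true] at h
    by_cases hx : 2 * (D' : ℝ) * u < c + d
    · refine chkT_spec l h.1 h1 h2 ?_ ?_
      · push_cast; linarith
      · push_cast; linarith
    · refine chkT_spec r h.2 h1 h2 ?_ ?_
      · push_cast; linarith
      · push_cast; linarith

end Pool.Agent.W802.BA
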