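import Pool.Agent.W779.Morrey.Beurling4

set_option autoImplicit false

open MeasureTheory Set Filter Topology Polynomial

namespace Pool.Agent.W802.BA

open Pool.Agent.W779.Morrey

/-- the form of the heat certificate: `HeatCert W θ` says that it is nonnegative for compatible `G₀`, `G₁` -/
noncomputable def MF (W : E → ℝ) (θ : E → E →L[ℝ] ℝ) (F G₀ G₁ : E) : ℝ :=
  fderiv ℝ (fderiv ℝ W) F G₀ G₀ + fderiv ℝ (fderiv ℝ W) F G₁ G₁
    + (fderiv ℝ θ F G₀ G₁ - fderiv ℝ θ F G₁ G₀)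

/-- Functions on the open quadrant, with their partial derivatives up to order two. -/
structure Rad2 (f fs ft fss fst ftt : ℝ → ℝ → ℝ) : Prop where
  d0 : ∀ s t : ℝ, 0 < s → 0 < t → HasFDerivAt (fun q : ℝ × ℝ => f q.1 q.2)
    (fs s t • ContinuousLinearMap.fst ℝ ℝ ℝ + ft s t • ContinuousLinearMap.snd ℝ ℝ ℝ) (s, t)
  ds : ∀ s t : ℝ, 0 < s → 0 < t → HasFDerivAt (fun q : ℝ × ℝ => fs q.1 q.2)
    (fss s t • ContinuousLinearMap.fst ℝ ℝ ℝ + fst s t • ContinuousLinearMap.snd ℝ ℝ ℝ) (s, t)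
  dt : ∀ s t : ℝ, 0 < s → 0 < t → HasFDerivAt (fun q : ℝ × ℝ => ft q.1 q.2)
    (fst s t • ContinuousLinearMap.fst ℝ ℝ ℝ + ftt s t • ContinuousLinearMap.snd ℝ ℝ ℝ) (s, t)
  css : ContinuousOn (fun q : ℝ × ℝ => fss q.1 q.2) (Ioi 0 ×ˢ Ioi 0)
  cst : ContinuousOn (fun q : ℝ × ℝ => fst q.1 q.2) (Ioi 0 ×ˢ Ioi 0)
  ctt : ContinuousOn (fun q : ℝ × ℝ => ftt q.1 q.2) (Ioi 0 ×ˢ Ioi 0)

/-- Functions on the open quadrant, with their first partial derivatives. -/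
structure Rad1 (α αs αt : ℝ → ℝ → ℝ) : Prop where
  d0 : ∀ s t : ℝ, 0 < s → 0 < t → HasFDerivAt (fun q : ℝ × ℝ => α q.1 q.2)
    (αs s t • ContinuousLinearMap.fst ℝ ℝ ℝ + αt s t • ContinuousLinearMap.snd ℝ ℝ ℝ) (s, t)
  cs : ContinuousOn (fun q : ℝ × ℝ => αs q.1 q.2) (Ioi 0 ×ˢ Ioi 0)
  ct : ContinuousOn (fun q : ℝ × ℝ => αt q.1 q.2) (Ioi 0 ×ˢ Ioi 0)

/-- regularised lengths of the conformal and anticonformal parts -/
noncomputable def sg (ε : ℝ) (F : E) : ℝ := √(pP F + ε ^ 2)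
noncomputable def tg (ε : ℝ) (F : E) : ℝ := √(pQ F + ε ^ 2)

noncomputable def Wr (f : ℝ → ℝ → ℝ) (ε : ℝ) (F : E) : ℝ := f (sg ε F) (tg ε F)

noncomputable def θr (α β : ℝ → ℝ → ℝ) (ε : ℝ) (F : E) : E →L[ℝ] ℝ :=
  α (sg ε F) (tg ε F) • (a1 F • a2 - a2 F • a1) + β (sg ε F) (tg ε F) • (b1 F • b2 - b2 F • b1)

/-- scalar and vector products of the two parts -/
noncomputable def da (F G : E) : ℝ := a1 F * a1 G + a2 F * a2 G
noncomputable def wa (F G : E) : ℝ := a1 F * a2 G - a2 F * a1 G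
noncomputable def db (F G : E) : ℝ := b1 F * b1 G + b2 F * b2 G
noncomputable def wb (F G : E) : ℝ := b1 F * b2 G - b2 F * b1 G

/-- second derivative of `f(|a|,|b|)` in the direction `G`; `s`, `t` are the (regularised) lengths -/
noncomputable def H2 (fs ft fss fst ftt : ℝ → ℝ → ℝ) (s t : ℝ) (F G : E) : ℝ :=
  fss s t * (da F G / s) ^ 2 + 2 * fst s t * (da F G / s) * (db F G / t)
    + ftt s t * (db F G / t) ^ 2 + fs s t / s * (pP G - (da F G / s) ^ 2)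
    + ft s t / t * (pQ G - (db F G / t) ^ 2)

/-- exterior derivative of the one-form -/
noncomputable def T2 (α αs αt β βs βt : ℝ → ℝ → ℝ) (s t : ℝ) (F G H : E) : ℝ :=
  (αs s t * (da F G / s) + αt s t * (db F G / t)) * wa F H
    - (αs s t * (da F H / s) + αt s t * (db F H / t)) * wa F G + 2 * α s t * wa G H
    + (βs s t * (da F G / s) + βt s t * (db F G / t)) * wb F H
    - (βs s t * (da F H / s) + βt s t * (db F H / t)) * wb F G + 2 * β s t * wb G H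

noncomputable def J (fs ft fss fst ftt α αs αt β βs βt : ℝ → ℝ → ℝ) (s t : ℝ) (F G₀ G₁ : E) : ℝ :=
  H2 fs ft fss fst ftt s t F G₀ + H2 fs ft fss fst ftt s t F G₁ + T2 α αs αt β βs βt s t F G₀ G₁

/-- the quadratic form of the certificate in polar coordinates -/
noncomputable def Q4 (fs ft fss fst ftt α αs αt β βs βt : ℝ → ℝ → ℝ) (s t x y z w : ℝ) : ℝ :=
  fss s t * x ^ 2 + fs s t / s * y ^ 2 + ftt s t * z ^ 2 + ft s t / t * w ^ 2
    + 2 * fst s t * (x * z) + (2 * α s t + s * αs s t) * (x * y) + s * αt s t * (y * z)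
    + t * βs s t * (x * w) + (2 * β s t + t * βt s t) * (z * w)

/-- **isotropic certificate** -/
structure IsoCert (f fs ft fss fst ftt α αs αt β βs βt : ℝ → ℝ → ℝ) : Prop where
  rad : Rad2 f fs ft fss fst ftt
  rα : Rad1 α αs αt
  rβ : Rad1 β βs βt
  bound : ∀ R : ℝ, ∃ C : ℝ, 0 ≤ C ∧ ∀ s t : ℝ, 0 < s → 0 < t → s ≤ R → t ≤ R →
    |f s t| ≤ C ∧ |fss s t| ≤ C ∧ |fst s t| ≤ C ∧ |ftt s t| ≤ C ∧ |fs s t| ≤ C * s ∧
    -(C * t) ≤ ft s t ∧ |α s t| ≤ C ∧ s * |αs s t| ≤ C ∧ s * |αt s t| ≤ C ∧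
    |β s t| ≤ C ∧ t * |βs s t| ≤ C ∧ t * |βt s t| ≤ C
  cert : ∀ s t x y z w : ℝ, 0 < s → 0 < t → (y = x + (z + w) ∨ y = x - (z + w)) →
    0 ≤ Q4 fs ft fss fst ftt α αs αt β βs βt s t x y z w

/-! ### The homogeneous family -/

/-- `(t + 2 s) ^ e * g(ξ)` with `ξ = t / (t + p s)` -/
noncomputable def hom (p e : ℝ) (g : ℝ[X]) (s t : ℝ) : ℝ :=
  (t + 2 * s) ^ e * g.eval (t / (t + p * s))

/-- `(t + 2 s) / (t + p s)` as a polynomial in `ξ` -/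
noncomputable def eta (p : ℝ) : ℝ[X] := X + C (2 / p) * (1 - X)

/-- `∂_s (hom p e g) = p * hom p (e - 1) (DS p e g)` -/
noncomputable def DS (p e : ℝ) (g : ℝ[X]) : ℝ[X] :=
  C (2 * e / p) * g - eta p * X * derivative g

/-- `∂_t (hom p e g) = p * hom p (e - 1) (DT p e g)` -/
noncomputable def DT (p e : ℝ) (g : ℝ[X]) : ℝ[X] :=
  C (e / p) * g + C (1 / p) * eta p * (1 - X) * derivative g

/-- the quadratic form of the certificate of the family, divided by `p² (t+2s)^(p-2)` -/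
noncomputable def NF (p : ℝ) (R a b : ℝ[X]) (ξ x y z w : ℝ) : ℝ :=
  (DS p (p - 1) (DS p p R)).eval ξ * x ^ 2
    + (eta p).eval ξ / (1 - ξ) * (DS p p R).eval ξ * y ^ 2
    + (DT p (p - 1) (DT p p R)).eval ξ * z ^ 2
    + (eta p).eval ξ / (p * ξ) * (DT p p R).eval ξ * w ^ 2
    + 2 * (DT p (p - 1) (DS p p R)).eval ξ * (x * z)
    + (2 * (eta p ^ 2 * a).eval ξ + (1 - ξ) / (eta p).eval ξ * (DS p (p - 2) (eta p ^ 2 * a)).eval ξ)
      * (x * y)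
    + (1 - ξ) / (eta p).eval ξ * (DT p (p - 2) (eta p ^ 2 * a)).eval ξ * (y * z)
    + ξ / (eta p).eval ξ * (DS p (p - 2) (eta p ^ 2 * b)).eval ξ * (x * w)
    + (2 / p * (eta p ^ 2 * b).eval ξ + ξ / (eta p).eval ξ * (DT p (p - 2) (eta p ^ 2 * b)).eval ξ)
      * (z * w)

/-- the certificate polynomials: hypotheses for a fixed exponent -/
structure PolyCert (p : ℝ) (R a b : ℝ[X]) : Prop where
  R1 : R.eval 1 = -1
  dR1 : (derivative R).eval 1 = -2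
  T0 : 0 ≤ (DT p p R).eval 0
  form : ∀ ξ x y z w : ℝ, 0 < ξ → ξ < 1 → (y = x + (z + w) ∨ y = x - (z + w)) →
    0 ≤ NF p R a b ξ x y z w

end Pool.Agent.W802.BA
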