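import Pool.Agent.W802.BA.Check

set_option autoImplicit false

/-!
The same functions through the recursor of lists (much faster in the kernel).
-/

namespace Pool.Agent.W802.BA

/-- multiplication of integers through recursors -/
noncomputable def im (a b : ℤ) : ℤ :=
  Int.rec (motive := fun _ => ℤ)
    (fun m => Int.rec (motive := fun _ => ℤ) (fun n => Int.ofNat (Nat.mul m n))
      (fun n => Int.negOfNat (Nat.mul m (Nat.succ n))) b)
    (fun m => Int.rec (motive := fun _ => ℤ) (fun n => Int.negOfNat (Nat.mul (Nat.succ m) n))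
      (fun n => Int.ofNat (Nat.mul (Nat.succ m) (Nat.succ n))) b) a

theorem im_eq : ∀ a b : ℤ, im a b = a * b
  | .ofNat _, .ofNat _ => rfl
  | .ofNat _, .negSucc _ => rfl
  | .negSucc _, .ofNat _ => rfl
  | .negSucc _, .negSucc _ => rfl

noncomputable def fadd1 (p : List ℤ) : List ℤ → List ℤ :=
  List.rec (motive := fun _ => List ℤ → List ℤ) (fun q => q)
    (fun a p ih q => List.rec (motive := fun _ => List ℤ) (a :: p) (fun b q _ => (a + b) :: ih q) q) p

theorem fadd1_eq : fadd1 = add1 := by
  funext p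
  induction p with
  | nil => funext q; cases q <;> rfl
  | cons a p ih =>
    funext q
    cases q with
    | nil => rfl
    | cons b q =>
      have : fadd1 (a :: p) (b :: q) = (a + b) :: fadd1 p q := rfl
      rw [this, ih]; rfl

noncomputable def fsm1 (c : ℤ) (p : List ℤ) : List ℤ :=
  List.rec (motive := fun _ => List ℤ) [] (fun a _ ih => Int.mul c a :: ih) p

theorem fsm1_eq : fsm1 = sm1 := by
  funext c p
  induction p with
  | nil => rfl
  | cons a p ih =>
    have : fsm1 c (a :: p) = (c * a) :: fsm1 c p := rfl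
    rw [this, ih]; rfl

/-- `w l + a q` -/
noncomputable def fcomb (w a : ℤ) (l : List ℤ) : List ℤ → List ℤ :=
  List.rec (motive := fun _ => List ℤ → List ℤ) (fun q => fsm1 a q)
    (fun x _ ih q => List.rec (motive := fun _ => List ℤ) (Int.mul w x :: ih [])
      (fun y q _ => Int.add (Int.mul w x) (Int.mul a y) :: ih q) q) l

theorem ev1_fcomb (u : ℝ) (w a : ℤ) : ∀ l q : List ℤ,
    ev1 u (fcomb w a l q) = w * ev1 u l + a * ev1 u q
  | [], q => by
    have : fcomb w a [] q = fsm1 a q := rfl
    rw [this, fsm1_eq, ev1_sm]; simp [ev1]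
  | x :: l, [] => by
    have : fcomb w a (x :: l) [] = (w * x) :: fcomb w a l [] := rfl
    rw [this]
    simp only [ev1, ev1_fcomb u w a l []]
    push_cast; ring
  | x :: l, y :: q => by
    have : fcomb w a (x :: l) (y :: q) = (w * x + a * y) :: fcomb w a l q := rfl
    rw [this]
    simp only [ev1, ev1_fcomb u w a l q]
    push_cast; ring

/-- `w l + q` -/
noncomputable def fax (w : ℤ) (l : List ℤ) : List ℤ → List ℤ :=
  List.rec (motive := fun _ => List ℤ → List ℤ) (fun q => q)
    (fun x _ ih q => List.rec (motive := fun _ => List ℤ) (Int.mul w x :: ih [])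
      (fun y q _ => Int.add (Int.mul w x) y :: ih q) q) l

theorem ev1_fax (u : ℝ) (w : ℤ) : ∀ l q : List ℤ,
    ev1 u (fax w l q) = w * ev1 u l + ev1 u q
  | [], q => by
    have : fax w [] q = q := rfl
    rw [this]; simp [ev1]
  | x :: l, [] => by
    have : fax w (x :: l) [] = (w * x) :: fax w l [] := rfl
    rw [this]
    simp only [ev1, ev1_fax u w l []]
    push_cast; ring
  | x :: l, y :: q => by
    have : fax w (x :: l) (y :: q) = (w * x + y) :: fax w l q := rfl
    rw [this]
    simp only [ev1, ev1_fax u w l q]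
    push_cast; ring

/-- `b prev + (a + b t) N` -/
noncomputable def flin2 (a b : ℤ) (N : List (List ℤ)) : List ℤ → List (List ℤ) :=
  List.rec (motive := fun _ => List ℤ → List (List ℤ)) (fun prev => [fsm1 b prev])
    (fun x _ ih prev => fcomb b a prev x :: ih x) N

theorem ev2_flin2 (t u : ℝ) (a b : ℤ) : ∀ (N : List (List ℤ)) (prev : List ℤ),
    ev2 t u (flin2 a b N prev) = b * ev1 u prev + (a + b * t) * ev2 t u N
  | [], prev => by
    have : flin2 a b [] prev = [fsm1 b prev] := rfl
    rw [this, fsm1_eq]; simp [ev2, ev1_sm]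
  | x :: N, prev => by
    have : flin2 a b (x :: N) prev = fcomb b a prev x :: flin2 a b N x := rfl
    rw [this]
    simp only [ev2, ev2_flin2 t u a b N x, ev1_fcomb]
    ring

/-- `l W + M` -/
noncomputable def faw (l : List ℤ) (W : List ℤ) : List (List ℤ) → List (List ℤ) :=
  List.rec (motive := fun _ => List (List ℤ) → List (List ℤ)) (fun M => M)
    (fun w _ ih M => List.rec (motive := fun _ => List (List ℤ)) (fsm1 w l :: ih [])
      (fun m M _ => fax w l m :: ih M) M) W

theorem ev2_faw (t u : ℝ) (l : List ℤ) : ∀ (W : List ℤ) (M : List (List ℤ)),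
    ev2 t u (faw l W M) = ev1 u l * ev1 t W + ev2 t u M
  | [], M => by
    have : faw l [] M = M := rfl
    rw [this]; simp [ev1]
  | w :: W, [] => by
    have : faw l (w :: W) [] = fsm1 w l :: faw l W [] := rfl
    rw [this, fsm1_eq]
    simp only [ev1, ev2, ev1_sm, ev2_faw t u l W []]
    ring
  | w :: W, m :: M => by
    have : faw l (w :: W) (m :: M) = fax w l m :: faw l W M := rfl
    rw [this]
    simp only [ev1, ev2, ev1_fax, ev2_faw t u l W M]
    ring

/-- scalar versions -/
noncomputable def flin1 (a b : ℤ) (N : List ℤ) : ℤ → List ℤ :=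
  List.rec (motive := fun _ => ℤ → List ℤ) (fun prev => [Int.mul b prev])
    (fun x _ ih prev => Int.add (Int.mul b prev) (Int.mul a x) :: ih x) N

theorem ev1_flin1 (t : ℝ) (a b : ℤ) : ∀ (N : List ℤ) (prev : ℤ),
    ev1 t (flin1 a b N prev) = b * prev + (a + b * t) * ev1 t N
  | [], prev => by
    have : flin1 a b [] prev = [b * prev] := rfl
    rw [this]; simp [ev1]
  | x :: N, prev => by
    have : flin1 a b (x :: N) prev = (b * prev + a * x) :: flin1 a b N x := rfl
    rw [this]
    simp only [ev1, ev1_flin1 t a b N x]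
    push_cast; ring

/-- numerators, outer variable; the powers of the denominator come along -/
noncomputable def fsubx (a b D : ℤ) (L : List (List ℤ)) : List (List ℤ) × List ℤ :=
  List.rec (motive := fun _ => List (List ℤ) × List ℤ) ([], [1])
    (fun l _ ih => Prod.rec (motive := fun _ => List (List ℤ) × List ℤ)
      (fun N W => (faw l W (flin2 a b N []), flin1 D D W 0)) ih) L

noncomputable def fsubu (a b D : ℤ) (L : List ℤ) : List ℤ × List ℤ :=
  List.rec (motive := fun _ => List ℤ × List ℤ) ([], [1])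
    (fun l _ ih => Prod.rec (motive := fun _ => List ℤ × List ℤ)
      (fun N W => (fax l W (flin1 a b N 0), flin1 D D W 0)) ih) L

theorem fsubx_cons (a b D : ℤ) (l : List ℤ) (L : List (List ℤ)) :
    fsubx a b D (l :: L) = (faw l (fsubx a b D L).2 (flin2 a b (fsubx a b D L).1 []),
      flin1 D D (fsubx a b D L).2 0) := rfl

theorem fsubu_cons (a b D : ℤ) (l : ℤ) (L : List ℤ) :
    fsubu a b D (l :: L) = (fax l (fsubu a b D L).2 (flin1 a b (fsubu a b D L).1 0),
      flin1 D D (fsubu a b D L).2 0) := rfl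

theorem fsubx_spec (a b D : ℤ) (x t u : ℝ) (hx : (a : ℝ) + b * t = x * (D * (1 + t))) :
    ∀ L : List (List ℤ), ev1 t (fsubx a b D L).2 = (D * (1 + t)) ^ L.length ∧
      ev2 t u (fsubx a b D L).1 * (D * (1 + t)) = (D * (1 + t)) ^ L.length * ev2 x u L
  | [] => by
    have : fsubx a b D [] = ([], [1]) := rfl
    rw [this]; simp [ev2, ev1]
  | l :: L => by
    obtain ⟨h1, h2⟩ := fsubx_spec a b D x t u hx L
    rw [fsubx_cons]
    constructor
    · simp only [ev1_flin1, h1, List.length_cons, pow_succ]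
      push_cast; ring
    · simp only [ev2_faw, ev2_flin2, h1, List.length_cons, pow_succ, ev2, ev1]
      have : (((a : ℝ) + b * t) * ev2 t u (fsubx a b D L).1) * (D * (1 + t))
          = x * (D * (1 + t)) * ((D * (1 + t)) ^ L.length * ev2 x u L) := by
        rw [mul_assoc, h2, ← hx]
      rw [mul_zero, zero_add, add_mul, this]; ring

theorem fsubu_spec (a b D : ℤ) (x t : ℝ) (hx : (a : ℝ) + b * t = x * (D * (1 + t))) :
    ∀ L : List ℤ, ev1 t (fsubu a b D L).2 = (D * (1 + t)) ^ L.length ∧
      ev1 t (fsubu a b D L).1 * (D * (1 + t)) = (D * (1 + t)) ^ L.length * ev1 x L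
  | [] => by
    have : fsubu a b D [] = ([], [1]) := rfl
    rw [this]; simp [ev1]
  | l :: L => by
    obtain ⟨h1, h2⟩ := fsubu_spec a b D x t hx L
    rw [fsubu_cons]
    constructor
    · simp only [ev1_flin1, h1, List.length_cons, pow_succ]
      push_cast; ring
    · simp only [ev1_fax, ev1_flin1, h1, List.length_cons, pow_succ, ev1]
      have : (((a : ℝ) + b * t) * ev1 t (fsubu a b D L).1) * (D * (1 + t))
          = x * (D * (1 + t)) * ((D * (1 + t)) ^ L.length * ev1 x L) := by
        rw [mul_assoc, h2, ← hx]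
      push_cast
      rw [mul_zero, zero_add, add_mul, this]; ring

noncomputable def fnI (a : ℤ) : Bool := Int.rec (motive := fun _ => Bool) (fun _ => true)
  (fun _ => false) a

theorem fnI_spec : ∀ a : ℤ, fnI a = true → 0 ≤ a
  | .ofNat n, _ => Int.natCast_nonneg n
  | .negSucc n, h => by
    have : fnI (.negSucc n) = false := rfl
    rw [this] at h
    exact absurd h (by simp)

noncomputable def fnn (l : List ℤ) : Bool :=
  List.rec (motive := fun _ => Bool) true
    (fun a _ ih => Bool.rec (motive := fun _ => Bool) false ih (fnI a)) l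

theorem fnn_cons {a : ℤ} {l : List ℤ} (h : fnn (a :: l) = true) : 0 ≤ a ∧ fnn l = true := by
  have e : fnn (a :: l) = Bool.rec (motive := fun _ => Bool) false (fnn l) (fnI a) := rfl
  rw [e] at h
  cases h1 : fnI a with
  | false => rw [h1] at h; exact absurd h (by simp)
  | true => rw [h1] at h; exact ⟨fnI_spec a h1, h⟩

theorem fnn_spec {t : ℝ} (ht : 0 ≤ t) : ∀ l : List ℤ, fnn l = true → 0 ≤ ev1 t l
  | [], _ => by simp [ev1]
  | a :: l, h => by
    obtain ⟨h1, h2⟩ := fnn_cons h
    have h3 := fnn_spec ht l h2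
    have h4 : (0 : ℝ) ≤ a := by exact_mod_cast h1
    simp only [ev1]
    exact add_nonneg h4 (mul_nonneg ht h3)

noncomputable def fpad (m : ℕ) : List ℤ → List ℤ :=
  Nat.rec (motive := fun _ => List ℤ → List ℤ) (fun l => l)
    (fun _ ih l => List.rec (motive := fun _ => List ℤ) (0 :: ih []) (fun a l _ => a :: ih l) l) m

theorem ev1_fpad (u : ℝ) : ∀ (m : ℕ) (l : List ℤ), ev1 u (fpad m l) = ev1 u l
  | 0, l => rfl
  | m + 1, [] => by
    have : fpad (m + 1) [] = 0 :: fpad m [] := rfl
    rw [this]; simp [ev1, ev1_fpad u m []]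
  | m + 1, a :: l => by
    have : fpad (m + 1) (a :: l) = a :: fpad m l := rfl
    rw [this]; simp [ev1, ev1_fpad u m l]

noncomputable def fallU (m : ℕ) (c d D' : ℤ) (L : List (List ℤ)) : Bool :=
  List.rec (motive := fun _ => Bool) true
    (fun l _ ih => Bool.rec (motive := fun _ => Bool) false ih
      (fnn (fsubu c d D' (fpad m l)).1)) L

theorem fallU_cons {m : ℕ} {c d D' : ℤ} {l : List ℤ} {L : List (List ℤ)}
    (h : fallU m c d D' (l :: L) = true) :
    fnn (fsubu c d D' (fpad m l)).1 = true ∧ fallU m c d D' L = true := by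
  have e : fallU m c d D' (l :: L) = Bool.rec (motive := fun _ => Bool) false (fallU m c d D' L)
    (fnn (fsubu c d D' (fpad m l)).1) := rfl
  rw [e] at h
  cases h1 : fnn (fsubu c d D' (fpad m l)).1 with
  | false => rw [h1] at h; exact absurd h (by simp)
  | true => rw [h1] at h; exact ⟨rfl, h⟩

theorem fchkU_spec (m : ℕ) (c d D' : ℤ) (hD : 0 < D') {u : ℝ} (h1 : (c : ℝ) ≤ D' * u)
    (h2 : D' * u < d) (l : List ℤ) (h : fnn (fsubu c d D' (fpad m l)).1 = true) :
    0 ≤ ev1 u l := by
  have hD' : (0 : ℝ) < D' := by exact_mod_cast hD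
  set τ : ℝ := (D' * u - c) / (d - D' * u) with hτ
  have h3 : 0 < (d : ℝ) - D' * u := by linarith
  have hτ0 : 0 ≤ τ := div_nonneg (by linarith) h3.le
  have hx : (c : ℝ) + d * τ = u * (D' * (1 + τ)) := by
    rw [hτ]; field_simp; ring
  obtain ⟨-, h5⟩ := fsubu_spec c d D' u τ hx (fpad m l)
  have h6 := fnn_spec hτ0 _ h
  have h7 : 0 < (D' : ℝ) * (1 + τ) := by positivity
  rw [ev1_fpad] at h5
  have h8 : 0 ≤ (D' * (1 + τ)) ^ (fpad m l).length * ev1 u l := by rw [← h5]; positivity
  exact nonneg_of_mul_nonneg_right h8 (by positivity)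

theorem fall_spec (m : ℕ) (c d D' : ℤ) (hD : 0 < D') {u t : ℝ} (ht : 0 ≤ t)
    (h1 : (c : ℝ) ≤ D' * u) (h2 : D' * u < d) :
    ∀ L : List (List ℤ), fallU m c d D' L = true → 0 ≤ ev2 t u L
  | [], _ => by simp [ev2]
  | l :: L, h => by
    obtain ⟨h5, h6⟩ := fallU_cons h
    have h3 := fall_spec m c d D' hD ht h1 h2 L h6
    have h4 := fchkU_spec m c d D' hD h1 h2 l h5
    simp only [ev2]
    exact add_nonneg h4 (mul_nonneg ht h3)

/-- the check on one box -/
noncomputable def fchk (m : ℕ) (a b D c d D' : ℤ) (L : List (List ℤ)) : Bool :=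
  fallU m c d D' (fsubx a b D L).1

theorem fchk_spec {m : ℕ} {a b D c d D' : ℤ} {L : List (List ℤ)} (hD : 0 < D) (hD' : 0 < D')
    (h : fchk m a b D c d D' L = true) {x u : ℝ}
    (hx1 : (a : ℝ) ≤ D * x) (hx2 : D * x < b) (h1 : (c : ℝ) ≤ D' * u) (h2 : D' * u < d) :
    0 ≤ ev2 x u L := by
  have hDr : (0 : ℝ) < D := by exact_mod_cast hD
  set t : ℝ := (D * x - a) / (b - D * x) with ht
  have h3 : 0 < (b : ℝ) - D * x := by linarith
  have ht0 : 0 ≤ t := div_nonneg (by linarith) h3.le
  have hx : (a : ℝ) + b * t = x * (D * (1 + t)) := by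
    rw [ht]; field_simp; ring
  obtain ⟨-, h5⟩ := fsubx_spec a b D x t u hx L
  have h6 := fall_spec m c d D' hD' ht0 h1 h2 _ h
  have h7 : 0 < (D : ℝ) * (1 + t) := by positivity
  have h8 : 0 ≤ (D * (1 + t)) ^ L.length * ev2 x u L := by rw [← h5]; positivity
  exact nonneg_of_mul_nonneg_right h8 (by positivity)

noncomputable def band (x y : Bool) : Bool := Bool.rec (motive := fun _ => Bool) false y x

theorem band_spec : ∀ {x y : Bool}, band x y = true → x = true ∧ y = true
  | true, _, h => ⟨rfl, h⟩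
  | false, _, h => by
    have : (false : Bool) = true := h
    exact absurd this (by simp)

/-- the bisection -/
noncomputable def fchkT (m : ℕ) (L : List (List ℤ)) (T : BT) : ℤ → ℤ → ℤ → ℤ → ℤ → ℤ → Bool :=
  BT.rec (motive := fun _ => ℤ → ℤ → ℤ → ℤ → ℤ → ℤ → Bool)
    (fun a b D c d D' => fchk m a b D c d D' L)
    (fun _ _ f g a b D c d D' => band (f (2 * a) (a + b) (2 * D) c d D')
      (g (a + b) (2 * b) (2 * D) c d D'))
    (fun _ _ f g a b D c d D' => band (f a b D (2 * c) (c + d) (2 * D'))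
      (g a b D (c + d) (2 * d) (2 * D'))) T

theorem fchkT_spec {m : ℕ} {L : List (List ℤ)} : ∀ (T : BT) {a b D c d D' : ℤ}, 0 < D → 0 < D' →
    fchkT m L T a b D c d D' = true → ∀ {x u : ℝ}, (a : ℝ) ≤ D * x → D * x < b → (c : ℝ) ≤ D' * u →
    D' * u < d → 0 ≤ ev2 x u L
  | .leaf, _, _, _, _, _, _, hD, hD', h, _, _, h1, h2, h3, h4 => fchk_spec hD hD' h h1 h2 h3 h4
  | .sx l r, a, b, D, c, d, D', hD, hD', h, x, u, h1, h2, h3, h4 => by
    have h' : band (fchkT m L l (2 * a) (a + b) (2 * D) c d D')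
      (fchkT m L r (a + b) (2 * b) (2 * D) c d D') = true := h
    obtain ⟨k1, k2⟩ := band_spec h'
    by_cases hx : 2 * (D : ℝ) * x < a + b
    · refine fchkT_spec l (by positivity) hD' k1 ?_ ?_ h3 h4
      · push_cast; linarith
      · push_cast; linarith
    · refine fchkT_spec r (by positivity) hD' k2 ?_ ?_ h3 h4
      · push_cast; linarith
      · push_cast; linarith
  | .su l r, a, b, D, c, d, D', hD, hD', h, x, u, h1, h2, h3, h4 => by
    have h' : band (fchkT m L l a b D (2 * c) (c + d) (2 * D'))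
      (fchkT m L r a b D (c + d) (2 * d) (2 * D')) = true := h
    obtain ⟨k1, k2⟩ := band_spec h'
    by_cases hx : 2 * (D' : ℝ) * u < c + d
    · refine fchkT_spec l hD (by positivity) k1 h1 h2 ?_ ?_
      · push_cast; linarith
      · push_cast; linarith
    · refine fchkT_spec r hD (by positivity) k2 h1 h2 ?_ ?_
      · push_cast; linarith
      · push_cast; linarith

end Pool.Agent.W802.BA
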