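import Pool.Agent.W802.BA.Two

set_option autoImplicit false

open MeasureTheory Set Filter Topology

namespace Pool.Agent.W802.BA

open Pool.Agent.W779.Morrey

/-- the integral inequality for every exponent -/
theorem iwaniec_all (p : ℝ) (hp : 1 < p) (f : ℂ → ℂ) (hf : ContDiff ℝ 1 f)
    (hc : HasCompactSupport f) :
    ∫ z, ‖(1 / 2 : ℂ) * (fderiv ℝ f z 1 + Complex.I * fderiv ℝ f z Complex.I)‖ ^ p
      ≤ ((1 + 3 / 100 * |1 - 2 / p|) * (max p (p / (p - 1)) - 1)) ^ p *
        ∫ z, ‖(1 / 2 : ℂ) * (fderiv ℝ f z 1 - Complex.I * fderiv ℝ f z Complex.I)‖ ^ p := by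
  have h1 : 0 < p - 1 := by linarith
  have hp0 : 0 < p := by linarith
  rcases le_or_gt 2 p with h2 | h2
  · have e1 : max p (p / (p - 1)) = p := by
      refine max_eq_left ?_
      rw [div_le_iff₀ h1]
      nlinarith
    have e2 : |1 - 2 / p| = 1 - 2 / p := by
      refine abs_of_nonneg ?_
      rw [sub_nonneg, div_le_one hp0]; exact h2
    rw [e1, e2]
    exact main_ge h2 f hf hc
  · have e1 : max p (p / (p - 1)) = p / (p - 1) := by
      refine max_eq_right ?_
      rw [le_div_iff₀ h1]
      nlinarith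
    have e2 : |1 - 2 / p| = 2 / p - 1 := by
      rw [abs_of_nonpos]
      · ring
      · rw [sub_nonpos, one_le_div hp0]; exact h2.le
    rw [e1, e2]
    have hq : 2 ≤ p / (p - 1) := by rw [le_div_iff₀ h1]; linarith
    have h := W374.BABack.back p _ hp (cc_nonneg hq) (sch_le hp h2.le) f hf hc
    have e3 : cc (p / (p - 1)) = 1 + 3 / 100 * (2 / p - 1) := by
      unfold cc
      congr 2
      field_simp
      ring
    rw [e3] at h
    exact h

end Pool.Agent.W802.BA
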