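import Pool.Agent.W802.BA.Check
import Pool.Agent.W802.BA.Defs

set_option autoImplicit false

open Polynomial

namespace Pool.Agent.W802.BA

def dXaux (k : ℤ) : List (List ℤ) → List (List ℤ)
  | [] => []
  | l :: L => sm1 k l :: dXaux (k + 1) L

def dX : List (List ℤ) → List (List ℤ)
  | [] => []
  | _ :: L => dXaux 1 L

def etaL : List (List ℤ) := [[0, 2], [1, -2]]
def omL : List (List ℤ) := [[1], [-1]]

def DSl (k : ℤ) (L : List (List ℤ)) : List (List ℤ) :=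
  add2 (sm2 [2, -2 * k] L) (sm2 [-1] (mul2 etaL ([] :: dX L)))

def DTl (k : ℤ) (L : List (List ℤ)) : List (List ℤ) :=
  add2 (sm2 [1, -k] L) (sm2 [0, 1] (mul2 etaL (mul2 omL (dX L))))

noncomputable def toP (u : ℝ) : List (List ℤ) → ℝ[X]
  | [] => 0
  | l :: L => C (ev1 u l) + X * toP u L

theorem eval_toP (u x : ℝ) : ∀ L : List (List ℤ), (toP u L).eval x = ev2 x u L
  | [] => by simp [toP, ev2]
  | l :: L => by simp [toP, ev2, eval_toP u x L]

theorem toP_add (u : ℝ) : ∀ p q : List (List ℤ), toP u (add2 p q) = toP u p + toP u q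
  | [], q => by simp [add2, toP]
  | a :: p, [] => by simp [add2, toP]
  | a :: p, b :: q => by simp only [add2, toP, toP_add u p q, ev1_add, map_add]; ring

theorem toP_sm (u : ℝ) (c : List ℤ) : ∀ p : List (List ℤ), toP u (sm2 c p) = C (ev1 u c) * toP u p
  | [] => by simp [sm2, toP]
  | a :: p => by
    have h := toP_sm u c p
    simp only [sm2] at h
    simp only [sm2, List.map_cons, toP, h, ev1_mul, map_mul]; ring

theorem toP_mul (u : ℝ) : ∀ p q : List (List ℤ), toP u (mul2 p q) = toP u p * toP u q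
  | [], q => by simp [mul2, toP]
  | a :: p, q => by
    simp only [mul2, toP_add, toP_sm, toP, toP_mul u p q, ev1, map_zero]; ring

theorem toP_dXaux (u : ℝ) : ∀ (L : List (List ℤ)) (k : ℤ),
    toP u (dXaux k L) = C (k : ℝ) * toP u L + X * derivative (toP u L)
  | [], k => by simp [dXaux, toP]
  | l :: L, k => by
    have h := toP_dXaux u L (k + 1)
    simp only [dXaux, toP, ev1_sm, h, derivative_add, derivative_C, derivative_mul, derivative_X,
      zero_add, one_mul, map_mul]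
    push_cast
    simp only [map_add, map_one]
    ring

theorem toP_dX (u : ℝ) : ∀ L : List (List ℤ), derivative (toP u L) = toP u (dX L)
  | [] => by simp [dX, toP]
  | l :: L => by
    simp only [dX, toP_dXaux, toP, derivative_add, derivative_C, derivative_mul, derivative_X,
      zero_add, one_mul, Int.cast_one, map_one]

theorem toP_eta {p : ℝ} : toP (1 / p) etaL = eta p := by
  simp only [etaL, toP, ev1, eta]
  have : (2 : ℝ) / p = 2 * (1 / p) := by ring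
  rw [this]
  simp only [Int.cast_zero, Int.cast_ofNat, Int.cast_one, Int.cast_neg, mul_zero, add_zero, zero_add,
    map_mul, map_add, map_one, map_neg, map_ofNat, map_zero]
  ring

theorem toP_om {u : ℝ} : toP u omL = 1 - X := by
  simp only [omL, toP, ev1, Int.cast_one, Int.cast_neg, mul_zero, add_zero, map_one, map_neg]
  ring

theorem toP_DS {p : ℝ} (hp : p ≠ 0) (k : ℤ) (L : List (List ℤ)) :
    DS p (p - k) (toP (1 / p) L) = toP (1 / p) (DSl k L) := by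
  unfold DS DSl
  rw [toP_add, toP_sm, toP_sm, toP_mul, toP_eta, toP_dX]
  have h : 2 * (p - k) / p = ev1 (1 / p) [2, -2 * k] := by
    simp only [ev1]; push_cast; field_simp; ring
  rw [h]
  simp only [toP, ev1, Int.cast_neg, Int.cast_one, mul_zero, add_zero, map_neg, map_one, map_zero,
    zero_add]
  ring

theorem toP_DT {p : ℝ} (hp : p ≠ 0) (k : ℤ) (L : List (List ℤ)) :
    DT p (p - k) (toP (1 / p) L) = toP (1 / p) (DTl k L) := by
  unfold DT DTl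
  rw [toP_add, toP_sm, toP_sm, toP_mul, toP_mul, toP_eta, toP_om, toP_dX]
  have h : (p - k) / p = ev1 (1 / p) [1, -k] := by
    simp only [ev1]; push_cast; field_simp; ring
  rw [h]
  simp only [ev1, Int.cast_zero, Int.cast_one, mul_zero, add_zero, zero_add, mul_one]
  ring

theorem DS_smul (p e c : ℝ) (g : ℝ[X]) : DS p e (C c * g) = C c * DS p e g := by
  unfold DS
  rw [derivative_C_mul]; ring

theorem DT_smul (p e c : ℝ) (g : ℝ[X]) : DT p e (C c * g) = C c * DT p e g := by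
  unfold DT
  rw [derivative_C_mul]; ring

/-! the reduced operators on `a`, `b` -/

def v1 (A : List (List ℤ)) : List (List ℤ) :=
  add2 (sm2 [2, -4] (mul2 omL A)) (sm2 [-1] ([] :: mul2 etaL (dX A)))

def v2 (A : List (List ℤ)) : List (List ℤ) :=
  add2 (sm2 [1, -2] A) (sm2 [0, 1] (mul2 omL (add2 (sm2 [2, -4] A) (mul2 etaL (dX A)))))

theorem derivative_eta {p : ℝ} : derivative (eta p) = C (1 - 2 / p) := by
  unfold eta
  simp only [derivative_add, derivative_X, derivative_C_mul, derivative_sub, derivative_one,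
    map_sub, map_one]
  ring

theorem DS_eta {p : ℝ} (hp : p ≠ 0) (A : List (List ℤ)) :
    DS p (p - 2) (eta p ^ 2 * toP (1 / p) A) = eta p ^ 2 * toP (1 / p) (v1 A) := by
  unfold DS v1
  rw [toP_add, toP_sm, toP_sm, toP_mul, toP_om]
  simp only [toP, toP_mul, toP_eta, ← toP_dX, derivative_mul, derivative_pow, derivative_eta]
  have h : 2 * (p - 2) / p = 2 * (1 - 2 / p) := by field_simp
  have h2 : ev1 (1 / p) [2, -4] = 2 * (1 - 2 / p) := by
    simp only [ev1]; push_cast; ring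
  rw [h, h2]
  simp only [ev1, Int.cast_neg, Int.cast_one, mul_zero, add_zero, map_neg, map_one, map_zero,
    zero_add, map_mul, map_ofNat, Nat.cast_ofNat]
  unfold eta
  simp only [map_sub, map_one]
  ring_nf

theorem DT_eta {p : ℝ} (hp : p ≠ 0) (A : List (List ℤ)) :
    DT p (p - 2) (eta p ^ 2 * toP (1 / p) A) = eta p ^ 2 * toP (1 / p) (v2 A) := by
  unfold DT v2
  rw [toP_add, toP_sm, toP_sm, toP_mul, toP_add, toP_sm, toP_mul, toP_om]
  simp only [toP_eta, ← toP_dX, derivative_mul, derivative_pow, derivative_eta]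
  have h : (p - 2) / p = 1 - 2 / p := by field_simp
  have h2 : ev1 (1 / p) [2, -4] = 2 * (1 - 2 / p) := by
    simp only [ev1]; push_cast; ring
  have h3 : ev1 (1 / p) [1, -2] = 1 - 2 / p := by
    simp only [ev1]; push_cast; ring
  have h4 : ev1 (1 / p) [0, 1] = 1 / p := by
    simp only [ev1]; push_cast; ring
  rw [h, h2, h3, h4]
  simp only [map_mul, map_ofNat, Nat.cast_ofNat, map_sub, map_one]
  ring

/-! entries of the form (all multiplied by `1000`) -/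

structure Dat where
  R : List (List ℤ)
  A : List (List ℤ)
  B : List (List ℤ)
  q : List (List ℤ)

def cxx (d : Dat) := DSl 1 (DSl 0 d.R)
def czz (d : Dat) := DTl 1 (DTl 0 d.R)
def cxz (d : Dat) := sm2 [2] (DTl 1 (DSl 0 d.R))
def cyy (d : Dat) := mul2 etaL d.q
def cwwx (d : Dat) := sm2 [0, 1] (mul2 etaL (DTl 0 d.R))
def cxy (d : Dat) := mul2 etaL (add2 (sm2 [2] (mul2 etaL d.A)) (mul2 omL (v1 d.A)))
def cyz (d : Dat) := mul2 etaL (mul2 omL (v2 d.A))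
def cxw (d : Dat) := mul2 etaL ([] :: v1 d.B)
def czw (d : Dat) := mul2 etaL (add2 (sm2 [0, 2] (mul2 etaL d.B)) ([] :: v2 d.B))

def eX2 (d : Dat) := add2 (cxx d) (add2 (cyy d) (cxy d))
def eZ2 (e : ℤ) (d : Dat) := add2 (czz d) (add2 (cyy d) (sm2 [e] (cyz d)))
def eW2 (d : Dat) := add2 (cwwx d) ([] :: cyy d)
def eXZ (e : ℤ) (d : Dat) :=
  add2 (cxz d) (add2 (sm2 [2 * e] (cyy d)) (add2 (sm2 [e] (cxy d)) (cyz d)))
def eXW (e : ℤ) (d : Dat) := add2 (sm2 [2 * e] (cyy d)) (add2 (sm2 [e] (cxy d)) (cxw d))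
def eZW (e : ℤ) (d : Dat) := add2 (sm2 [2] (cyy d)) (add2 (sm2 [e] (cyz d)) (czw d))

def fm2 (X2 Z2 XZ : List (List ℤ)) := add2 (sm2 [4] (mul2 X2 Z2)) (sm2 [-1] (mul2 XZ XZ))
def fdet (X2 Z2 W2 XZ XW ZW m2 : List (List ℤ)) :=
  add2 (mul2 W2 m2) (sm2 [-1] ([] :: add2 (mul2 X2 (mul2 ZW ZW))
    (add2 (sm2 [-1] (mul2 XZ (mul2 ZW XW))) (mul2 Z2 (mul2 XW XW)))))

/-- positivity of a ternary quadratic form from its minors -/
theorem form_nonneg {X2 Z2 W2x XZ XW ZW ξ : ℝ} (hξ : 0 < ξ) (h1 : 0 < X2)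
    (h2 : 0 < 4 * (X2 * Z2) - XZ * XZ)
    (h3 : 0 ≤ W2x * (4 * (X2 * Z2) - XZ * XZ)
      - ξ * (X2 * (ZW * ZW) - XZ * (ZW * XW) + Z2 * (XW * XW))) (x z w : ℝ) :
    0 ≤ X2 * x ^ 2 + Z2 * z ^ 2 + W2x / ξ * w ^ 2 + XZ * (x * z) + XW * (x * w) + ZW * (z * w) := by
  set m := 4 * (X2 * Z2) - XZ * XZ with hm
  set Q := X2 * x ^ 2 + Z2 * z ^ 2 + W2x / ξ * w ^ 2 + XZ * (x * z) + XW * (x * w) + ZW * (z * w)
    with hQ
  have e : ξ * (4 * X2 * m * Q) = ξ * (m * (2 * X2 * x + XZ * z + XW * w) ^ 2)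
      + ξ * (m * z + (2 * X2 * ZW - XZ * XW) * w) ^ 2
      + 4 * X2 * (W2x * m - ξ * (X2 * (ZW * ZW) - XZ * (ZW * XW) + Z2 * (XW * XW))) * w ^ 2 := by
    rw [hQ, hm]; field_simp; ring
  have h4 : 0 ≤ ξ * (4 * X2 * m * Q) := by
    rw [e]
    have := mul_nonneg (mul_nonneg (by positivity : (0:ℝ) ≤ 4 * X2) h3) (sq_nonneg w)
    have a1 : 0 ≤ ξ * (m * (2 * X2 * x + XZ * z + XW * w) ^ 2) := by positivity
    have a2 : 0 ≤ ξ * (m * z + (2 * X2 * ZW - XZ * XW) * w) ^ 2 := by positivity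
    linarith
  have h5 : 0 < ξ * (4 * X2 * m) := by positivity
  have h6 : 0 ≤ (ξ * (4 * X2 * m)) * Q := by rw [mul_assoc]; exact h4
  exact nonneg_of_mul_nonneg_right h6 h5

theorem ev_nil (x u : ℝ) (L : List (List ℤ)) : ev2 x u ([] :: L) = x * ev2 x u L := by
  simp [ev2, ev1]

/-- what the kernel checks give -/
structure Checked (d : Dat) (u : ℝ) : Prop where
  q : ∀ x : ℝ, (1 - x) * ev2 x u d.q = ev2 x u (DSl 0 d.R)
  x2 : ∀ x : ℝ, 0 < x → x < 1 → 0 < ev2 x u (eX2 d)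
  m2 : ∀ e : ℤ, (e = 1 ∨ e = -1) → ∀ x : ℝ, 0 < x → x < 1 →
    0 < ev2 x u (fm2 (eX2 d) (eZ2 e d) (eXZ e d))
  det : ∀ e : ℤ, (e = 1 ∨ e = -1) → ∀ x : ℝ, 0 < x → x < 1 →
    0 ≤ ev2 x u (fdet (eX2 d) (eZ2 e d) (eW2 d) (eXZ e d) (eXW e d) (eZW e d)
      (fm2 (eX2 d) (eZ2 e d) (eXZ e d)))

theorem eta_eval {p : ℝ} (ξ : ℝ) : (eta p).eval ξ = ev2 ξ (1 / p) etaL := by
  rw [← toP_eta, eval_toP]

theorem NF_eq {p : ℝ} (hp : 2 < p) {d : Dat} (h : Checked d (1 / p)) {ξ : ℝ} (h0 : 0 < ξ)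
    (h1 : ξ < 1) (c : ℝ) (x y z w : ℝ) :
    NF p (C c * toP (1 / p) d.R) (C c * toP (1 / p) d.A) (C c * toP (1 / p) d.B) ξ x y z w
      = c * (ev2 ξ (1 / p) (cxx d) * x ^ 2 + ev2 ξ (1 / p) (cyy d) * y ^ 2
        + ev2 ξ (1 / p) (czz d) * z ^ 2 + ev2 ξ (1 / p) (cwwx d) / ξ * w ^ 2
        + ev2 ξ (1 / p) (cxz d) * (x * z) + ev2 ξ (1 / p) (cxy d) * (x * y)
        + ev2 ξ (1 / p) (cyz d) * (y * z) + ev2 ξ (1 / p) (cxw d) * (x * w)
        + ev2 ξ (1 / p) (czw d) * (z * w)) := by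
  have hp0 : p ≠ 0 := by positivity
  have k0 := toP_DS hp0 0 d.R
  have k1 := toP_DT hp0 0 d.R
  have k2 := toP_DS hp0 1 (DSl 0 d.R)
  have k3 := toP_DT hp0 1 (DTl 0 d.R)
  have k4 := toP_DT hp0 1 (DSl 0 d.R)
  simp only [Int.cast_zero, sub_zero, Int.cast_one] at k0 k1 k2 k3 k4
  have hη : 0 < (eta p).eval ξ := by
    unfold eta
    simp only [eval_add, eval_mul, eval_X, eval_C, eval_sub, eval_one]
    have : 0 < 2 / p := by positivity
    have := mul_pos this (sub_pos.2 h1)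
    linarith
  have hη' := eta_eval (p := p) ξ
  have hz : (1:ℝ) - ξ ≠ 0 := by linarith
  have hq := h.q ξ
  have hom : ev2 ξ (1 / p) omL = 1 - ξ := by simp [omL, ev2, ev1]; ring
  unfold NF
  have r1 : eta p ^ 2 * (C c * toP (1 / p) d.A) = C c * (eta p ^ 2 * toP (1 / p) d.A) := by ring
  have r2 : eta p ^ 2 * (C c * toP (1 / p) d.B) = C c * (eta p ^ 2 * toP (1 / p) d.B) := by ring
  rw [r1, r2]
  simp only [DS_smul, DT_smul, k0, k1, k2, k3, k4, DS_eta hp0, DT_eta hp0, eval_mul, eval_C,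
    eval_pow, eval_toP]
  simp only [cxx, czz, cxz, cyy, cwwx, cxy, cyz, cxw, czw, ev2_add, ev2_sm, ev2_mul, ev_nil, hom,
    ← hη', ← hq]
  simp only [ev1, Int.cast_zero, Int.cast_one, Int.cast_ofNat, mul_zero, add_zero, zero_add]
  have hη0 := hη.ne'
  have hξ0 := h0.ne'
  field_simp

theorem NF_nonneg {p : ℝ} (hp : 2 < p) {d : Dat} (h : Checked d (1 / p)) {ξ : ℝ} (h0 : 0 < ξ)
    (h1 : ξ < 1) {c : ℝ} (hc : 0 ≤ c) (x y z w : ℝ) (hy : y = x + (z + w) ∨ y = x - (z + w)) :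
    0 ≤ NF p (C c * toP (1 / p) d.R) (C c * toP (1 / p) d.A) (C c * toP (1 / p) d.B) ξ x y z w := by
  rw [NF_eq hp h h0 h1]
  refine mul_nonneg hc ?_
  obtain ⟨e, he, hy⟩ : ∃ e : ℤ, (e = 1 ∨ e = -1) ∧ y = x + e * (z + w) := by
    rcases hy with h | h
    · exact ⟨1, Or.inl rfl, by rw [h]; simp⟩
    · exact ⟨-1, Or.inr rfl, by rw [h]; push_cast; ring⟩
  have he2 : (e : ℝ) ^ 2 = 1 := by rcases he with h | h <;> rw [h] <;> norm_num
  have a1 := h.x2 ξ h0 h1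
  have a2 := h.m2 e he ξ h0 h1
  have a3 := h.det e he ξ h0 h1
  have m2e : ev2 ξ (1 / p) (fm2 (eX2 d) (eZ2 e d) (eXZ e d))
      = 4 * (ev2 ξ (1 / p) (eX2 d) * ev2 ξ (1 / p) (eZ2 e d))
        - ev2 ξ (1 / p) (eXZ e d) * ev2 ξ (1 / p) (eXZ e d) := by
    simp only [fm2, ev2_add, ev2_sm, ev2_mul, ev1]; push_cast; ring
  have dete : ev2 ξ (1 / p) (fdet (eX2 d) (eZ2 e d) (eW2 d) (eXZ e d) (eXW e d) (eZW e d)
      (fm2 (eX2 d) (eZ2 e d) (eXZ e d)))
      = ev2 ξ (1 / p) (eW2 d) * (4 * (ev2 ξ (1 / p) (eX2 d) * ev2 ξ (1 / p) (eZ2 e d))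
        - ev2 ξ (1 / p) (eXZ e d) * ev2 ξ (1 / p) (eXZ e d))
        - ξ * (ev2 ξ (1 / p) (eX2 d) * (ev2 ξ (1 / p) (eZW e d) * ev2 ξ (1 / p) (eZW e d))
          - ev2 ξ (1 / p) (eXZ e d) * (ev2 ξ (1 / p) (eZW e d) * ev2 ξ (1 / p) (eXW e d))
          + ev2 ξ (1 / p) (eZ2 e d) * (ev2 ξ (1 / p) (eXW e d) * ev2 ξ (1 / p) (eXW e d))) := by
    rw [fdet, ev2_add, ev2_mul, m2e, ev2_sm, ev_nil, ev2_add, ev2_mul, ev2_mul, ev2_add, ev2_sm,
      ev2_mul, ev2_mul, ev2_mul, ev2_mul]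
    simp only [ev1]; push_cast; ring
  rw [m2e] at a2
  rw [dete] at a3
  have key := form_nonneg h0 a1 a2 a3 x z w
  refine key.trans (le_of_eq ?_)
  simp only [eX2, eZ2, eW2, eXZ, eXW, eZW, ev2_add, ev2_sm, ev_nil, ev1, Int.cast_mul,
    Int.cast_ofNat, mul_zero, add_zero]
  rw [hy]
  have hξ0 := h0.ne'
  have e1 : (ev2 ξ (1 / p) (cwwx d) + ξ * ev2 ξ (1 / p) (cyy d)) / ξ
      = ev2 ξ (1 / p) (cwwx d) / ξ + ev2 ξ (1 / p) (cyy d) := by field_simp
  rw [e1]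
  linear_combination (-(ev2 ξ (1 / p) (cyy d)) * (z + w) ^ 2) * he2

end Pool.Agent.W802.BA
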