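import Pool.Agent.W802.BA.Cert
import Pool.Agent.W393.BA.Flow
import Pool.Agent.W61.BA.Calc
import Pool.Agent.W363.BA.Block
import Pool.Agent.W728.BA.Iso
import Pool.Agent.W646.BA.Fam
import Pool.Agent.W440.BA.Lim
import Pool.Agent.W440.BA.Int
import Pool.Agent.W991.BA.Obst
import Pool.Agent.W214.BA.Dual
import Pool.Agent.W374.BA.Mult
import Pool.Agent.W374.BA.Back

set_option autoImplicit false

open MeasureTheory Set Filter Topology Polynomial
open scoped SchwartzMap FourierTransform ENNReal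

namespace Pool.Agent.W802.BA

open Pool.Agent.W779.Morrey

theorem sIso : S_Iso := W728.BA.iso W393.BA.flow W61.BA.calc_main W363.BA.block

/-- from a polynomial certificate to the integral inequality, one exponent -/
theorem int_of_cert {p c : ℝ} {R a b : ℝ[X]} (hp : 2 < p) (hc : 1 ≤ c) (h : PolyCert p R a b)
    (h1 : R.eval (c * (p - 1) / (c * (p - 1) + p)) ≤ 0)
    (h2 : 0 < (DS p p R).eval (c * (p - 1) / (c * (p - 1) + p)))
    (h3 : ∀ ξ : ℝ, 0 < ξ → ξ < 1 → 0 ≤ (DT p (p - 1) (DS p p R)).eval ξ) :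
    ∀ f : ℂ → ℂ, ContDiff ℝ 1 f → HasCompactSupport f →
      ∫ z, ‖dzbar f z‖ ^ p ≤ (c * (p - 1)) ^ p * ∫ z, ‖dz f z‖ ^ p := by
  obtain ⟨K, hK, hobs⟩ := W991.BA.obst p c R hp hc h1 h2 h3
  obtain ⟨hcont, hlim⟩ := W440.BA.lim p R hp
  have hq : QCtrig (fun F : E => hom p p R (√(pP F)) (√(pQ F))) :=
    sIso _ _ _ _ _ _ _ _ _ _ _ _ (W646.BA.fam p R a b hp h) _ hcont hlim
  have hcp : 0 ≤ c * (p - 1) := by nlinarith
  refine W440.BA.int p ((c * (p - 1)) ^ p) K (fun F : E => hom p p R (√(pP F)) (√(pQ F))) hp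
    (Real.rpow_nonneg hcp p) hK hcont hq ?_ ?_
  · have h0 : pP (0 : E) = 0 := by simp [pP, a1, a2]
    have h0' : pQ (0 : E) = 0 := by simp [pQ, b1, b2]
    simp only [h0, h0', Real.sqrt_zero, hom, mul_zero, add_zero]
    rw [Real.zero_rpow (by linarith), zero_mul]
  · intro F
    have := hobs (√(pP F)) (√(pQ F)) (Real.sqrt_nonneg _) (Real.sqrt_nonneg _)
    rw [Real.mul_rpow hcp (Real.sqrt_nonneg _)] at this
    exact this

theorem cc_one {p : ℝ} (hp : 2 < p) : 1 ≤ cc p := by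
  unfold cc
  have : 2 / p < 1 := by rw [div_lt_one (by linarith)]; exact hp
  linarith

theorem main_gt {p : ℝ} (hp : 2 < p) : ∀ f : ℂ → ℂ, ContDiff ℝ 1 f → HasCompactSupport f →
    ∫ z, ‖dzbar f z‖ ^ p ≤ (cc p * (p - 1)) ^ p * ∫ z, ‖dz f z‖ ^ p :=
  int_of_cert hp (cc_one hp) (polyCert hp) (R_obst hp) (S_obst hp) (F_st hp)

end Pool.Agent.W802.BA
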