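import Pool.Agent.W802.BA.Two

set_option autoImplicit false

open MeasureTheory
open scoped FourierTransform

namespace Pool.Agent.W802N.NearSharp

/-- For every real `p ≥ 2` the Beurling transform (the Fourier multiplier with symbol `conj ξ / ξ`,
the case `n = 1` of the powers) has norm at most `(1 + 0.03 (1 - 2 / p)) (p - 1)` on `L^p` of the
plane. -/
theorem result (p : ℝ) (hp : 2 ≤ p) (f : SchwartzMap ℂ ℂ) :
    eLpNorm
      (fun z : ℂ => ∫ ξ : ℂ,
        Complex.exp (2 * (Real.pi : ℂ) * Complex.I * ((z.re * ξ.re + z.im * ξ.im : ℝ) : ℂ)) *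
          ((starRingEnd ℂ ξ / ξ) ^ 1 *
            ∫ w : ℂ, Complex.exp (-(2 * (Real.pi : ℂ) * Complex.I *
              ((w.re * ξ.re + w.im * ξ.im : ℝ) : ℂ))) * f w))
      (ENNReal.ofReal p) volume
    ≤ ENNReal.ofReal ((1 + 3 / 100 * (1 - 2 / p)) * (p - 1)) *
      eLpNorm (fun z : ℂ => f z) (ENNReal.ofReal p) volume := by
  have h := W802.BA.sch_ge hp f
  unfold W802.BA.cc at h
  refine le_trans (le_of_eq ?_) h
  congr 1
  funext z
  unfold W802.BA.Beu
  rw [Real.fourierInv_eq']
  refine integral_congr_ae (Filter.Eventually.of_forall fun ξ => ?_)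
  have hin : ∀ a b : ℂ, (inner ℝ a b : ℝ) = a.re * b.re + a.im * b.im := by
    intro a b
    rw [Complex.inner]
    simp
    ring
  simp only [smul_eq_mul, pow_one]
  rw [Real.fourier_eq']
  have e1 : ∫ w : ℂ, Complex.exp (-(2 * (Real.pi : ℂ) * Complex.I *
      ((w.re * ξ.re + w.im * ξ.im : ℝ) : ℂ))) * f w
      = ∫ v : ℂ, Complex.exp (((-2 * Real.pi * inner ℝ v ξ : ℝ) : ℂ) * Complex.I) • f v := by
    refine integral_congr_ae (Filter.Eventually.of_forall fun x => ?_)
    simp only [smul_eq_mul]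
    rw [hin]
    congr 2
    push_cast
    ring
  rw [e1, hin]
  congr 2
  push_cast
  ring

end Pool.Agent.W802N.NearSharp
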