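import Pool.Agent.W802.BA.Lists
import Pool.Agent.W802.BA.Fast

set_option autoImplicit false

open Polynomial

namespace Pool.Agent.W802.BA

def zero1 (l : List ℤ) : Bool := l.all (fun a => decide (a = 0))
def zero2 (L : List (List ℤ)) : Bool := L.all zero1

theorem zero1_spec (u : ℝ) : ∀ l : List ℤ, zero1 l = true → ev1 u l = 0
  | [], _ => rfl
  | a :: l, h => by
    simp only [zero1, List.all_cons, Bool.and_eq_true, decide_eq_true_eq] at h
    simp only [ev1, h.1, zero1_spec u l h.2]; simp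

theorem zero2_spec (x u : ℝ) : ∀ L : List (List ℤ), zero2 L = true → ev2 x u L = 0
  | [], _ => rfl
  | l :: L, h => by
    simp only [zero2, List.all_cons, Bool.and_eq_true] at h
    simp only [ev2, zero1_spec u l h.1, zero2_spec x u L h.2]; simp

/-- `A = (1 - 2u) B` -/
def isT (A B : List (List ℤ)) : Bool := zero2 (add2 A (sm2 [-1, 2] B))

theorem isT_spec {A B : List (List ℤ)} (h : isT A B = true) (x u : ℝ) :
    ev2 x u A = (1 - 2 * u) * ev2 x u B := by
  have := zero2_spec x u _ h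
  rw [ev2_add, ev2_sm] at this
  simp only [ev1] at this
  push_cast at this
  linarith

/-- `A = B` -/
def isE (A B : List (List ℤ)) : Bool := zero2 (add2 A (sm2 [-1] B))

theorem isE_spec {A B : List (List ℤ)} (h : isE A B = true) (x u : ℝ) :
    ev2 x u A = ev2 x u B := by
  have := zero2_spec x u _ h
  rw [ev2_add, ev2_sm] at this
  simp only [ev1] at this
  push_cast at this
  linarith

theorem ev_fm2 (x u : ℝ) (X2 Z2 XZ : List (List ℤ)) : ev2 x u (fm2 X2 Z2 XZ)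
    = 4 * (ev2 x u X2 * ev2 x u Z2) - ev2 x u XZ * ev2 x u XZ := by
  simp only [fm2, ev2_add, ev2_sm, ev2_mul, ev1]; push_cast; ring

theorem ev_fdet (x u : ℝ) (X2 Z2 W2 XZ XW ZW m2 : List (List ℤ)) :
    ev2 x u (fdet X2 Z2 W2 XZ XW ZW m2) = ev2 x u W2 * ev2 x u m2
      - x * (ev2 x u X2 * (ev2 x u ZW * ev2 x u ZW) - ev2 x u XZ * (ev2 x u ZW * ev2 x u XW)
        + ev2 x u Z2 * (ev2 x u XW * ev2 x u XW)) := by
  rw [fdet, ev2_add, ev2_mul, ev2_sm, ev_nil, ev2_add, ev2_mul, ev2_mul, ev2_add, ev2_sm,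
      ev2_mul, ev2_mul, ev2_mul, ev2_mul]
  simp only [ev1]; push_cast; ring

/-- value at `x = 1`, as a list -/
def at1 : List (List ℤ) → List ℤ
  | [] => []
  | l :: L => add1 l (at1 L)

theorem at1_spec (u : ℝ) : ∀ L : List (List ℤ), ev1 u (at1 L) = ev2 1 u L
  | [] => rfl
  | l :: L => by simp only [at1, ev1_add, ev2, at1_spec u L, one_mul]

/-- substitution of a rational function of `u` for `x`; numerator and power of the denominator -/
def subr (N M : List ℤ) : List (List ℤ) → List ℤ × List ℤ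
  | [] => ([], [1])
  | l :: L => (add1 (mul1 l (subr N M L).2) (mul1 N (subr N M L).1), mul1 M (subr N M L).2)

theorem subr_spec (N M : List ℤ) (x u : ℝ) (hx : x * ev1 u M = ev1 u N) :
    ∀ L : List (List ℤ), ev1 u (subr N M L).2 = (ev1 u M) ^ L.length ∧
      ev1 u (subr N M L).1 * ev1 u M = (ev1 u M) ^ L.length * ev2 x u L
  | [] => by simp [subr, ev2, ev1]
  | l :: L => by
    obtain ⟨h1, h2⟩ := subr_spec N M x u hx L
    constructor
    · simp only [subr, ev1_mul, h1, List.length_cons, pow_succ]; ring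
    · simp only [subr, ev1_add, ev1_mul, h1, List.length_cons, pow_succ, ev2]
      rw [← hx]
      linear_combination (x * ev1 u M) * h2

theorem checkTB {m : ℕ} {L : List (List ℤ)} {T : BT} (h : fchkT m L T 0 1 1 0 1 2 = true) {x u : ℝ}
    (hx : 0 < x) (hx1 : x < 1) (hu : 0 < u) (hu1 : u < 1 / 2) : 0 ≤ ev2 x u L := by
  refine fchkT_spec T (by norm_num) (by norm_num) h ?_ ?_ ?_ ?_ <;> push_cast <;> linarith

theorem checkTB0 {m : ℕ} {L : List (List ℤ)} {T : BT} (h : fchkT m L T 0 1 1 0 1 2 = true) {x u : ℝ}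
    (hx : 0 ≤ x) (hx1 : x < 1) (hu : 0 < u) (hu1 : u < 1 / 2) : 0 ≤ ev2 x u L := by
  refine fchkT_spec T (by norm_num) (by norm_num) h ?_ ?_ ?_ ?_ <;> push_cast <;> linarith

theorem m2_pos {d : Dat} {e : ℤ} {X2 Z2 XZ m2 : List (List ℤ)}
    (h1 : isT (eX2 d) X2 = true) (h2 : isT (eZ2 e d) Z2 = true) (h3 : isT (eXZ e d) XZ = true)
    (h4 : isE (fm2 X2 Z2 XZ) m2 = true) {x u : ℝ} (hu : u < 1 / 2) (hm : 0 < ev2 x u m2) :
    0 < ev2 x u (fm2 (eX2 d) (eZ2 e d) (eXZ e d)) := by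
  have e4 := isE_spec h4 x u
  rw [ev_fm2] at e4
  rw [ev_fm2, isT_spec h1, isT_spec h2, isT_spec h3]
  have k : 0 < 1 - 2 * u := by linarith
  have : 4 * ((1 - 2 * u) * ev2 x u X2 * ((1 - 2 * u) * ev2 x u Z2))
      - (1 - 2 * u) * ev2 x u XZ * ((1 - 2 * u) * ev2 x u XZ) = (1 - 2 * u) ^ 2 * ev2 x u m2 := by
    rw [← e4]; ring
  rw [this]; positivity

theorem det_nonneg {d : Dat} {e : ℤ} {X2 Z2 W2 XZ XW ZW m2 det : List (List ℤ)}
    (h1 : isT (eX2 d) X2 = true) (h2 : isT (eZ2 e d) Z2 = true) (h3 : isT (eXZ e d) XZ = true)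
    (h4 : isE (fm2 X2 Z2 XZ) m2 = true) (h5 : isT (eW2 d) W2 = true)
    (h6 : isT (eXW e d) XW = true) (h7 : isT (eZW e d) ZW = true)
    (h8 : isE (fdet X2 Z2 W2 XZ XW ZW m2) det = true) {x u : ℝ} (hu : u < 1 / 2)
    (hm : 0 ≤ ev2 x u det) :
    0 ≤ ev2 x u (fdet (eX2 d) (eZ2 e d) (eW2 d) (eXZ e d) (eXW e d) (eZW e d)
      (fm2 (eX2 d) (eZ2 e d) (eXZ e d))) := by
  have e4 := isE_spec h4 x u
  have e8 := isE_spec h8 x u
  rw [ev_fdet, ← e4, ev_fm2] at e8
  rw [ev_fdet, ev_fm2, isT_spec h1, isT_spec h2, isT_spec h3, isT_spec h5, isT_spec h6,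
    isT_spec h7]
  have k : 0 < 1 - 2 * u := by linarith
  have : 0 ≤ (1 - 2 * u) ^ 3 * ev2 x u det := by positivity
  refine this.trans (le_of_eq ?_)
  rw [← e8]; ring

end Pool.Agent.W802.BA
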