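import Pool.Agent.W802.BA.Defs

set_option autoImplicit false

open MeasureTheory Set Filter Topology Polynomial
open scoped SchwartzMap FourierTransform ENNReal

namespace Pool.Agent.W802.BA

open Pool.Agent.W779.Morrey

/-- BA-FLOW: the heat flow argument for a sequence of approximate certificates. -/
def S_Flow : Prop :=
  ∀ (W : E → ℝ) (Wk : ℕ → E → ℝ) (θk : ℕ → E → E →L[ℝ] ℝ), Continuous W →
    (∀ k, ContDiff ℝ 2 (Wk k)) → (∀ k, ContDiff ℝ 1 (θk k)) →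
    (∀ F, Tendsto (fun k => Wk k F) atTop (𝓝 (W F))) →
    (∀ R : ℝ, ∃ C : ℝ, ∀ k F, ‖F‖ ≤ R → |Wk k F| ≤ C) →
    (∀ R : ℝ, ∃ C : ℝ, ∀ k F G₀ G₁, ‖F‖ ≤ R →
      -(C * (‖G₀‖ ^ 2 + ‖G₁‖ ^ 2)) ≤ MF (Wk k) (θk k) F G₀ G₁) →
    (∀ F G₀ G₁ : E, pP F ≠ 0 → pQ F ≠ 0 → (∀ r, G₀ r 1 = G₁ r 0) →
      ∀ δ : ℝ, 0 < δ → ∀ᶠ k in atTop, -δ ≤ MF (Wk k) (θk k) F G₀ G₁) →
    QCtrig W

/-- BA-CALC: derivatives of the regularised isotropic functions. -/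
def S_Calc : Prop :=
  ∀ (f fs ft fss fst ftt α αs αt β βs βt : ℝ → ℝ → ℝ), Rad2 f fs ft fss fst ftt →
    Rad1 α αs αt → Rad1 β βs βt → ∀ ε : ℝ, 0 < ε →
    ContDiff ℝ 2 (Wr f ε) ∧ ContDiff ℝ 1 (θr α β ε) ∧
    ∀ F G₀ G₁ : E, MF (Wr f ε) (θr α β ε) F G₀ G₁ =
      J fs ft fss fst ftt α αs αt β βs βt (sg ε F) (tg ε F) F G₀ G₁

/-- BA-BLOCK: the form is nonnegative at the true lengths. -/
def S_Block : Prop :=
  ∀ (fs ft fss fst ftt α αs αt β βs βt : ℝ → ℝ → ℝ) (s t : ℝ) (F G₀ G₁ : E), 0 < s → 0 < t →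
    (∀ x y z w : ℝ, (y = x + (z + w) ∨ y = x - (z + w)) →
      0 ≤ Q4 fs ft fss fst ftt α αs αt β βs βt s t x y z w) →
    s ^ 2 = pP F → t ^ 2 = pQ F → (∀ r, G₀ r 1 = G₁ r 0) →
    0 ≤ J fs ft fss fst ftt α αs αt β βs βt s t F G₀ G₁

/-- BA-ISO: isotropic certificates give quasiconvexity. -/
def S_Iso : Prop :=
  ∀ (f fs ft fss fst ftt α αs αt β βs βt : ℝ → ℝ → ℝ),
    IsoCert f fs ft fss fst ftt α αs αt β βs βt → ∀ W : E → ℝ, Continuous W →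
    (∀ F, Tendsto (fun ε => Wr f ε F) (𝓝[>] (0 : ℝ)) (𝓝 (W F))) → QCtrig W

/-- BA-FAM: the homogeneous family satisfies the isotropic certificate. -/
def S_Fam : Prop :=
  ∀ (p : ℝ) (R a b : ℝ[X]), 2 < p → PolyCert p R a b →
    IsoCert (hom p p R) (fun s t => p * hom p (p - 1) (DS p p R) s t)
      (fun s t => p * hom p (p - 1) (DT p p R) s t)
      (fun s t => p ^ 2 * hom p (p - 2) (DS p (p - 1) (DS p p R)) s t)
      (fun s t => p ^ 2 * hom p (p - 2) (DT p (p - 1) (DS p p R)) s t)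
      (fun s t => p ^ 2 * hom p (p - 2) (DT p (p - 1) (DT p p R)) s t)
      (fun s t => p ^ 2 * hom p (p - 2) (eta p ^ 2 * a) s t)
      (fun s t => p ^ 3 * hom p (p - 3) (DS p (p - 2) (eta p ^ 2 * a)) s t)
      (fun s t => p ^ 3 * hom p (p - 3) (DT p (p - 2) (eta p ^ 2 * a)) s t)
      (fun s t => p * hom p (p - 2) (eta p ^ 2 * b) s t)
      (fun s t => p ^ 2 * hom p (p - 3) (DS p (p - 2) (eta p ^ 2 * b)) s t)
      (fun s t => p ^ 2 * hom p (p - 3) (DT p (p - 2) (eta p ^ 2 * b)) s t)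

/-- BA-LIM: continuity of the limit function of the family. -/
def S_Lim : Prop :=
  ∀ (p : ℝ) (R : ℝ[X]), 2 < p →
    Continuous (fun F : E => hom p p R (√(pP F)) (√(pQ F))) ∧
    ∀ F : E, Tendsto (fun ε => Wr (hom p p R) ε F) (𝓝[>] (0 : ℝ))
      (𝓝 (hom p p R (√(pP F)) (√(pQ F))))

/-- BA-OBST: the obstacle inequality for the family. -/
def S_Obst : Prop :=
  ∀ (p c : ℝ) (R : ℝ[X]), 2 < p → 1 ≤ c →
    R.eval (c * (p - 1) / (c * (p - 1) + p)) ≤ 0 →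
    0 < (DS p p R).eval (c * (p - 1) / (c * (p - 1) + p)) →
    (∀ ξ : ℝ, 0 < ξ → ξ < 1 → 0 ≤ (DT p (p - 1) (DS p p R)).eval ξ) →
    ∃ K : ℝ, 0 < K ∧ ∀ s t : ℝ, 0 ≤ s → 0 ≤ t →
      hom p p R s t ≤ K * ((c * (p - 1) * s) ^ p - t ^ p)

/-- BA-INT: from the quasiconvex function to the integral inequality. -/
def S_Int : Prop :=
  ∀ (p C K : ℝ) (W : E → ℝ), 2 < p → 0 ≤ C → 0 < K → Continuous W → QCtrig W → W 0 = 0 →
    (∀ F : E, W F ≤ K * (C * √(pP F) ^ p - √(pQ F) ^ p)) →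
    ∀ f : ℂ → ℂ, ContDiff ℝ 1 f → HasCompactSupport f →
      ∫ z, ‖dzbar f z‖ ^ p ≤ C * ∫ z, ‖dz f z‖ ^ p

/-- the Beurling transform of a Schwartz function, as a Fourier multiplier -/
noncomputable def Beu (f : 𝓢(ℂ, ℂ)) (z : ℂ) : ℂ :=
  𝓕⁻ (fun ξ : ℂ => starRingEnd ℂ ξ / ξ * 𝓕 (f : ℂ → ℂ) ξ) z

/-- BA-MULT: the multiplier form for Schwartz functions, from the integral inequality. -/
def S_Mult : Prop :=
  ∀ (p C : ℝ), 2 ≤ p → 0 ≤ C →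
    (∀ f : ℂ → ℂ, ContDiff ℝ 1 f → HasCompactSupport f →
      ∫ z, ‖dzbar f z‖ ^ p ≤ C ^ p * ∫ z, ‖dz f z‖ ^ p) →
    ∀ f : 𝓢(ℂ, ℂ), eLpNorm (Beu f) (ENNReal.ofReal p) (volume : Measure ℂ)
      ≤ ENNReal.ofReal C * eLpNorm f (ENNReal.ofReal p) (volume : Measure ℂ)

/-- BA-DUAL: duality, Schwartz functions. -/
def S_Dual : Prop :=
  ∀ (p q C : ℝ), 1 < p → 1 < q → 1 / p + 1 / q = 1 → 0 ≤ C →
    (∀ f : 𝓢(ℂ, ℂ), eLpNorm (Beu f) (ENNReal.ofReal p) (volume : Measure ℂ)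
      ≤ ENNReal.ofReal C * eLpNorm f (ENNReal.ofReal p) (volume : Measure ℂ)) →
    ∀ f : 𝓢(ℂ, ℂ), eLpNorm (Beu f) (ENNReal.ofReal q) (volume : Measure ℂ)
      ≤ ENNReal.ofReal C * eLpNorm f (ENNReal.ofReal q) (volume : Measure ℂ)

/-- BA-BACK: from the multiplier form back to compactly supported `C¹` functions. -/
def S_Back : Prop :=
  ∀ (p C : ℝ), 1 < p → 0 ≤ C →
    (∀ f : 𝓢(ℂ, ℂ), eLpNorm (Beu f) (ENNReal.ofReal p) (volume : Measure ℂ)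
      ≤ ENNReal.ofReal C * eLpNorm f (ENNReal.ofReal p) (volume : Measure ℂ)) →
    ∀ f : ℂ → ℂ, ContDiff ℝ 1 f → HasCompactSupport f →
      ∫ z, ‖dzbar f z‖ ^ p ≤ C ^ p * ∫ z, ‖dz f z‖ ^ p

end Pool.Agent.W802.BA
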