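import Pool.Agent.W802.BA.Main

set_option autoImplicit false

open MeasureTheory Set Filter Topology
open scoped SchwartzMap FourierTransform ENNReal

namespace Pool.Agent.W802.BA

open Pool.Agent.W779.Morrey

theorem cont_dz {f : ℂ → ℂ} (hf : ContDiff ℝ 1 f) : Continuous (dz f) := by
  have h := hf.continuous_fderiv (by norm_num)
  unfold dz
  exact continuous_const.mul ((h.clm_apply continuous_const).sub
    (continuous_const.mul (h.clm_apply continuous_const)))

theorem cont_dzbar {f : ℂ → ℂ} (hf : ContDiff ℝ 1 f) : Continuous (dzbar f) := by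
  have h := hf.continuous_fderiv (by norm_num)
  unfold dzbar
  exact continuous_const.mul ((h.clm_apply continuous_const).add
    (continuous_const.mul (h.clm_apply continuous_const)))

theorem supp_dz {f : ℂ → ℂ} (hc : HasCompactSupport f) : HasCompactSupport (dz f) := by
  refine (hc.fderiv (𝕜 := ℝ)).mono ?_
  intro z hz
  contrapose! hz
  simp only [Function.mem_support, not_not] at hz
  simp [dz, hz]

theorem supp_dzbar {f : ℂ → ℂ} (hc : HasCompactSupport f) : HasCompactSupport (dzbar f) := by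
  refine (hc.fderiv (𝕜 := ℝ)).mono ?_
  intro z hz
  contrapose! hz
  simp only [Function.mem_support, not_not] at hz
  simp [dzbar, hz]

/-- continuity in the exponent -/
theorem tendsto_pow_int {g : ℂ → ℂ} (hg : Continuous g) (hc : HasCompactSupport g) :
    Tendsto (fun q : ℝ => ∫ z, ‖g z‖ ^ q) (𝓝[>] (2 : ℝ)) (𝓝 (∫ z, ‖g z‖ ^ (2 : ℝ))) := by
  obtain ⟨M, hM⟩ := hc.exists_bound_of_continuous hg
  have hb : Integrable (fun z => (1 + M) * ‖g z‖ ^ (2 : ℝ)) := by
    refine Integrable.const_mul (Continuous.integrable_of_hasCompactSupport ?_ ?_) _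
    · exact hg.norm.rpow_const fun z => Or.inr (by norm_num)
    · refine hc.mono ?_
      intro z hz
      contrapose! hz
      simp only [Function.mem_support, not_not] at hz
      simp [hz]
  have hM0 : 0 ≤ M := (norm_nonneg _).trans (hM 0)
  refine tendsto_integral_filter_of_dominated_convergence _ ?_ ?_ hb ?_
  · filter_upwards [self_mem_nhdsWithin] with q hq
    exact (hg.norm.rpow_const fun z => Or.inr (by
      have : (2 : ℝ) < q := hq
      linarith)).aestronglyMeasurable
  · have h1 : Iio (3 : ℝ) ∈ 𝓝[>] (2 : ℝ) := mem_nhdsWithin_of_mem_nhds (Iio_mem_nhds (by norm_num))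
    filter_upwards [self_mem_nhdsWithin, h1] with q hq hq3
    refine Eventually.of_forall fun z => ?_
    have hq2 : (2 : ℝ) < q := hq
    have hq3' : q < 3 := hq3
    rw [Real.norm_of_nonneg (Real.rpow_nonneg (norm_nonneg _) _)]
    rcases eq_or_lt_of_le (norm_nonneg (g z)) with h0 | h0
    · rw [← h0, Real.zero_rpow (by linarith)]
      positivity
    · have e : ‖g z‖ ^ q = ‖g z‖ ^ (q - 2) * ‖g z‖ ^ (2 : ℝ) := by
        rw [← Real.rpow_add h0]; congr 1; ring
      rw [e]
      refine mul_le_mul_of_nonneg_right ?_ (by positivity)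
      calc ‖g z‖ ^ (q - 2) ≤ (1 + M) ^ (q - 2) :=
            Real.rpow_le_rpow h0.le (by linarith [hM z]) (by linarith)
        _ ≤ (1 + M) ^ (1 : ℝ) := Real.rpow_le_rpow_of_exponent_le (by linarith) (by linarith)
        _ = 1 + M := Real.rpow_one _
  · refine Eventually.of_forall fun z => ?_
    rcases eq_or_lt_of_le (norm_nonneg (g z)) with h0 | h0
    · rw [← h0, Real.zero_rpow (by norm_num)]
      refine tendsto_const_nhds.congr' ?_
      filter_upwards [self_mem_nhdsWithin] with q hq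
      have hq2 : (2 : ℝ) < q := hq
      rw [Real.zero_rpow (by linarith)]
    · have h2 : ContinuousAt (fun q : ℝ => ‖g z‖ ^ q) 2 :=
        (Real.continuous_const_rpow h0.ne').continuousAt
      exact h2.tendsto.mono_left nhdsWithin_le_nhds

theorem tendsto_cc : Tendsto (fun q : ℝ => (cc q * (q - 1)) ^ q) (𝓝[>] (2 : ℝ)) (𝓝 1) := by
  have h1 : ContinuousAt (fun q : ℝ => cc q * (q - 1)) 2 := by
    unfold cc
    refine ContinuousAt.mul ?_ (continuousAt_id.sub continuousAt_const)
    refine continuousAt_const.add (continuousAt_const.mul (continuousAt_const.sub ?_))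
    exact continuousAt_const.div continuousAt_id (by norm_num)
  have h2 : ContinuousAt (fun q : ℝ => (cc q * (q - 1)) ^ q) 2 := by
    refine h1.rpow continuousAt_id (Or.inl ?_)
    norm_num [cc]
  have h3 : (cc 2 * (2 - 1)) ^ (2 : ℝ) = 1 := by norm_num [cc]
  have := h2.tendsto.mono_left (nhdsWithin_le_nhds (s := Ioi 2))
  simpa [h3] using this

/-- **the bound for all `p ≥ 2`** -/
theorem main_ge {p : ℝ} (hp : 2 ≤ p) : ∀ f : ℂ → ℂ, ContDiff ℝ 1 f → HasCompactSupport f →
    ∫ z, ‖dzbar f z‖ ^ p ≤ (cc p * (p - 1)) ^ p * ∫ z, ‖dz f z‖ ^ p := by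
  rcases eq_or_lt_of_le hp with rfl | hp
  · intro f hf hc
    have h1 := tendsto_pow_int (cont_dzbar hf) (supp_dzbar hc)
    have h2 := tendsto_cc.mul (tendsto_pow_int (cont_dz hf) (supp_dz hc))
    have h3 : (cc 2 * (2 - 1)) ^ (2 : ℝ) = 1 := by norm_num [cc]
    rw [h3]
    refine le_of_tendsto_of_tendsto h1 h2 ?_
    filter_upwards [self_mem_nhdsWithin] with q hq
    exact main_gt hq f hf hc
  · exact main_gt hp

theorem cc_nonneg {p : ℝ} (hp : 2 ≤ p) : 0 ≤ cc p * (p - 1) := by
  have : 2 / p ≤ 1 := by rw [div_le_one (by linarith)]; exact hp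
  unfold cc
  have h : 0 ≤ 1 + 3 / 100 * (1 - 2 / p) := by linarith
  exact mul_nonneg h (by linarith)

theorem sch_ge {p : ℝ} (hp : 2 ≤ p) (f : 𝓢(ℂ, ℂ)) :
    eLpNorm (Beu f) (ENNReal.ofReal p) (volume : Measure ℂ)
      ≤ ENNReal.ofReal (cc p * (p - 1)) * eLpNorm f (ENNReal.ofReal p) (volume : Measure ℂ) :=
  W374.BAMult.mult p (cc p * (p - 1)) hp (cc_nonneg hp) (main_ge hp) f

/-- **the bound for `1 < p ≤ 2`** -/
theorem sch_le {p : ℝ} (hp : 1 < p) (hp2 : p ≤ 2) (f : 𝓢(ℂ, ℂ)) :
    eLpNorm (Beu f) (ENNReal.ofReal p) (volume : Measure ℂ)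
      ≤ ENNReal.ofReal (cc (p / (p - 1)) * (p / (p - 1) - 1))
        * eLpNorm f (ENNReal.ofReal p) (volume : Measure ℂ) := by
  have h1 : 0 < p - 1 := by linarith
  have hq : 2 ≤ p / (p - 1) := by rw [le_div_iff₀ h1]; linarith
  refine W214.BA.dual (p / (p - 1)) p _ (by linarith) hp ?_ (cc_nonneg hq) (sch_ge hq) f
  field_simp
  ring

end Pool.Agent.W802.BA
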